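import Pool.Agent.Lib.MP_de485e_gt.Jet

/-! Pointwise algebra and jets of the pinching functional. -/

open Filter Topology
open scoped RealInnerProductSpace InnerProduct

namespace Pool.Agent.Lib.MP_de485e_gt

variable {P Q : Type*} [NormedAddCommGroup P] [InnerProductSpace ℝ P] [CompleteSpace P]
  [NormedAddCommGroup Q] [InnerProductSpace ℝ Q] [CompleteSpace Q]

/-- The adjoint as a real continuous linear map. -/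
noncomputable def adjL : (P →L[ℝ] Q) →L[ℝ] Q →L[ℝ] P :=
  LinearMap.mkContinuous
    { toFun := fun L => L†
      map_add' := fun a b => map_add _ a b
      map_smul' := fun c a => by simp } 1 fun L => by simp

@[simp] theorem adjL_apply (L : P →L[ℝ] Q) : adjL L = L† := rfl

/-- Inverse of the induced metric. -/
noncomputable def gi (L : P →L[ℝ] Q) : P →L[ℝ] P := Ring.inverse (L† ∘L L)

/-- Inner product of the components normal to the range of `L`. -/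
noncomputable def pf (L : P →L[ℝ] Q) (ξ ζ : Q) : ℝ := ⟪ξ, ζ⟫ - ⟪(L†) ξ, gi L ((L†) ζ)⟫

/-- The pinching functional. -/
noncomputable def psi (Z : ℝ) (L : P →L[ℝ] Q) (ξ ζ : Q) : ℝ :=
  pf L (ξ - ζ) (ξ - ζ) - 4 * (Z * pf L ξ ζ)

/-- Normalisation by the induced length of `u`. -/
noncomputable def nz (L : P →L[ℝ] Q) (β : Q) (u : P) : Q := ⟪L u, L u⟫⁻¹ • β

section jets

variable {L : ℝ → P →L[ℝ] Q} {J L₁ L₂ : P →L[ℝ] Q}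

theorem jet_gi (hL : Jet L J L₁ L₂) (hJ : ∀ a, (J†) (J a) = a) (h₁ : ∀ a, (J†) (L₁ a) = 0)
    (h₂ : ∀ a, (J†) (L₂ a) = 0) :
    Jet (fun s => gi (L s)) 1 0 (-((2 : ℝ) • (L₁† ∘L L₁))) := by
  have key : ∀ {K : P →L[ℝ] Q}, (∀ a, (J†) (K a) = 0) → ∀ a, (K†) (J a) = 0 := by
    intro K hK a
    refine ext_inner_right ℝ fun b => ?_
    rw [ContinuousLinearMap.adjoint_inner_left, ← ContinuousLinearMap.adjoint_inner_right, hK]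
    simp
  refine Jet.ringInverse (((hL.clm adjL).bilin (ContinuousLinearMap.compL ℝ P Q P) hL).of_eq
    ?_ ?_ ?_)
  · ext a; simp [hJ]
  · ext a; simp [h₁, key h₁]
  · ext a; simp [h₂, key h₂]

theorem jet_pf (hL : Jet L J L₁ L₂) (hJ : ∀ a, (J†) (J a) = a) (h₁ : ∀ a, (J†) (L₁ a) = 0)
    (h₂ : ∀ a, (J†) (L₂ a) = 0) {ξ ζ : ℝ → Q} {ξ₀ ξ₁ ξ₂ ζ₀ ζ₁ ζ₂ : Q} (hξ : Jet ξ ξ₀ ξ₁ ξ₂)
    (hζ : Jet ζ ζ₀ ζ₁ ζ₂) (a₀ : (J†) ξ₀ = 0) (a₁ : (J†) ξ₁ = 0) (b₀ : (J†) ζ₀ = 0)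
    (b₁ : (J†) ζ₁ = 0) :
    Jet (fun s => pf (L s) (ξ s) (ζ s)) ⟪ξ₀, ζ₀⟫ (⟪ξ₁, ζ₀⟫ + ⟪ξ₀, ζ₁⟫)
      (⟪ξ₂, ζ₀⟫ + 2 * ⟪ξ₁, ζ₁⟫ + ⟪ξ₀, ζ₂⟫ - 2 * ⟪(L₁†) ξ₀, (L₁†) ζ₀⟫) := by
  refine ((hξ.inner hζ).sub (((hL.clm adjL).app hξ).inner
    ((jet_gi hL hJ h₁ h₂).app ((hL.clm adjL).app hζ)))).of_eq ?_ ?_ ?_ <;>
  simp [a₀, a₁, b₀, b₁]

theorem jet_psi (hL : Jet L J L₁ L₂) (hJ : ∀ a, (J†) (J a) = a) (h₁ : ∀ a, (J†) (L₁ a) = 0)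
    (h₂ : ∀ a, (J†) (L₂ a) = 0) {ξ ζ : ℝ → Q} {ξ₀ ξ₁ ξ₂ ζ₀ ζ₁ ζ₂ : Q} (hξ : Jet ξ ξ₀ ξ₁ ξ₂)
    (hζ : Jet ζ ζ₀ ζ₁ ζ₂) (a₀ : (J†) ξ₀ = 0) (a₁ : (J†) ξ₁ = 0) (b₀ : (J†) ζ₀ = 0)
    (b₁ : (J†) ζ₁ = 0) {Z : ℝ → ℝ} {z z₁ z₂ : ℝ} (hZ : Jet Z z z₁ z₂) :
    Jet (fun s => psi (Z s) (L s) (ξ s) (ζ s)) (⟪ξ₀ - ζ₀, ξ₀ - ζ₀⟫ - 4 * (z * ⟪ξ₀, ζ₀⟫))
      (⟪(2 : ℝ) • (ξ₀ - ζ₀) - (4 * z) • ζ₀, ξ₁⟫ + ⟪(-2 : ℝ) • (ξ₀ - ζ₀) - (4 * z) • ξ₀, ζ₁⟫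
        - 4 * z₁ * ⟪ξ₀, ζ₀⟫)
      (⟪(2 : ℝ) • (ξ₀ - ζ₀) - (4 * z) • ζ₀, ξ₂⟫ + ⟪(-2 : ℝ) • (ξ₀ - ζ₀) - (4 * z) • ξ₀, ζ₂⟫
        + (2 * ⟪ξ₁ - ζ₁, ξ₁ - ζ₁⟫ - 8 * z * ⟪ξ₁, ζ₁⟫)
        - 2 * (⟪(L₁†) (ξ₀ - ζ₀), (L₁†) (ξ₀ - ζ₀)⟫ - 4 * z * ⟪(L₁†) ξ₀, (L₁†) ζ₀⟫)
        - 4 * (z₂ * ⟪ξ₀, ζ₀⟫ + 2 * z₁ * (⟪ξ₁, ζ₀⟫ + ⟪ξ₀, ζ₁⟫))) := by
  have c₀ : (J†) (ξ₀ - ζ₀) = 0 := by rw [map_sub, a₀, b₀, sub_zero]
  have c₁ : (J†) (ξ₁ - ζ₁) = 0 := by rw [map_sub, a₁, b₁, sub_zero]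
  refine ((jet_pf hL hJ h₁ h₂ (hξ.sub hζ) (hξ.sub hζ) c₀ c₁ c₀ c₁).sub
    ((Jet.const (4 : ℝ)).smul (hZ.smul (jet_pf hL hJ h₁ h₂ hξ hζ a₀ a₁ b₀ b₁)))).of_eq
    rfl ?_ ?_
  · simp only [inner_sub_left, inner_sub_right, real_inner_smul_left, smul_eq_mul,
      real_inner_comm ξ₀ ξ₁, real_inner_comm ζ₀ ξ₁, real_inner_comm ζ₀ ζ₁, real_inner_comm ξ₀ ζ₁]
    ring
  · simp only [inner_sub_left ξ₂, inner_sub_right _ ξ₂, inner_sub_left _ _ ξ₂,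
      inner_sub_left _ _ ζ₂, inner_sub_right ξ₂, inner_sub_right ζ₂,
      real_inner_smul_left, smul_eq_mul,
      real_inner_comm ξ₀ ξ₂, real_inner_comm ζ₀ ξ₂, real_inner_comm ζ₀ ζ₂, real_inner_comm ξ₀ ζ₂]
    ring

theorem jet_nz (hL : Jet L J L₁ L₂) (hJ : ∀ a, (J†) (J a) = a) (h₁ : ∀ a, (J†) (L₁ a) = 0)
    (h₂ : ∀ a, (J†) (L₂ a) = 0) {β : ℝ → Q} {β₀ β₁ β₂ : Q} (hβ : Jet β β₀ β₁ β₂) {u a : P}
    (hu : ⟪u, u⟫ = 1) (ha : ⟪u, a⟫ = 0) :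
    Jet (fun s => nz (L s) (β s) (u + s • a)) β₀ β₁
      (β₂ - (2 * (⟪L₁ u, L₁ u⟫ + ⟪a, a⟫)) • β₀) := by
  have e : ∀ x y, ⟪J x, y⟫ = ⟪x, (J†) y⟫ := fun x y => by
    rw [ContinuousLinearMap.adjoint_inner_right]
  have e' : ∀ x y, ⟪y, J x⟫ = ⟪x, (J†) y⟫ := fun x y => by rw [real_inner_comm, e]
  have hg : Jet (fun s => ⟪L s (u + s • a), L s (u + s • a)⟫) 1 0
      (2 * (⟪L₁ u, L₁ u⟫ + ⟪a, a⟫)) := by
    refine ((hL.app (Jet.lin u a)).inner (hL.app (Jet.lin u a))).of_eq ?_ ?_ ?_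
    · rw [e, hJ, hu]
    · simp only [e, e', map_add, hJ, h₁, ha, zero_add]
    · simp only [inner_add_left, inner_add_right, e, e', hJ, h₁, h₂, inner_zero_right, map_zero,
        map_smul, smul_zero, map_add]
      ring
  refine (hg.inv.smul hβ).of_eq ?_ ?_ ?_
  · simp
  · simp
  · simp only [zero_smul, smul_zero, one_smul, neg_smul]; abel

end jets

/-- The scalar pinching polynomial. -/
def Gq (z p q : ℝ) : ℝ := (p - q) ^ 2 - 4 * (z * (1 + p * q))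

theorem Gq_mono {z p q p' q' : ℝ} (hz : 0 ≤ z) (h : Gq z p q ≤ 0) (h1 : q ≤ q') (h2 : q' ≤ p')
    (h3 : p' ≤ p) : Gq z p' q' ≤ 0 := by
  have conv : ∀ a b c : ℝ, Gq z a b ≤ 0 → (c - a) * (c - b) ≤ 0 → Gq z c b ≤ 0 := by
    intro a b c hab hc
    by_cases e : a = b
    · subst e
      have : c = a := by nlinarith
      rwa [this]
    · have hb : Gq z b b ≤ 0 := by unfold Gq; nlinarith [mul_nonneg hz (sq_nonneg b)]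
      have id : (a - b) ^ 2 * Gq z c b = (c - b) * (a - b) * Gq z a b
          + (a - c) * (a - b) * Gq z b b + (a - b) ^ 2 * ((c - a) * (c - b)) := by
        unfold Gq; ring
      have k1 : 0 ≤ (c - b) * (a - b) := by nlinarith [sq_nonneg (c - b)]
      have k2 : 0 ≤ (a - c) * (a - b) := by nlinarith [sq_nonneg (c - a)]
      have k3 : 0 < (a - b) ^ 2 := by have := sub_ne_zero.2 e; positivity
      by_contra hc'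
      push Not at hc'
      nlinarith [mul_pos k3 hc', mul_nonpos_of_nonneg_of_nonpos k1 hab,
        mul_nonpos_of_nonneg_of_nonpos k2 hb, mul_nonpos_of_nonneg_of_nonpos k3.le hc]
  have sy : ∀ a b, Gq z a b = Gq z b a := fun a b => by unfold Gq; ring
  have s1 := conv p q p' h (by nlinarith)
  rw [sy] at s1 ⊢
  exact conv q p' q' s1 (by nlinarith)

omit [CompleteSpace P] in
theorem eigen_of_max (A : P →L[ℝ] P →L[ℝ] ℝ) (hA : ∀ a b, A a b = A b a) {p : ℝ} {u : P}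
    (h : ∀ w, A w w ≤ p * ⟪w, w⟫) (hu : A u u = p * ⟪u, u⟫) (w : P) : A u w = p * ⟪u, w⟫ := by
  have key : ∀ t : ℝ, 0 ≤ (p * ⟪w, w⟫ - A w w) * (t * t) + 2 * (p * ⟪u, w⟫ - A u w) * t + 0 := by
    intro t
    have := h (u + t • w)
    simp only [map_add, map_smul, ContinuousLinearMap.add_apply, ContinuousLinearMap.smul_apply,
      smul_eq_mul, inner_add_left, inner_add_right, real_inner_smul_left, real_inner_smul_right,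
      hA w u, real_inner_comm u w] at this
    nlinarith
  have := discrim_le_zero key
  unfold discrim at this
  nlinarith

omit [CompleteSpace P] in
theorem op_bound (A : P →L[ℝ] P →L[ℝ] ℝ) (hA : ∀ a b, A a b = A b a) {p q : ℝ} (hpq : q < p)
    (h : ∀ w, A w w ≤ p * ⟪w, w⟫) (h' : ∀ w, q * ⟪w, w⟫ ≤ A w w) {e y : P} (he : ⟪e, e⟫ = 1)
    (hy : ∀ w, ⟪y, w⟫ = A e w) : ⟪y, y⟫ - (p + q) * ⟪y, e⟫ + p * q ≤ 0 := by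
  obtain ⟨s, hs⟩ : ∃ s, s = (p + q) / 2 := ⟨_, rfl⟩
  obtain ⟨d, hd⟩ : ∃ d, d = (p - q) / 2 := ⟨_, rfl⟩
  have hd0 : 0 < d := by linarith
  obtain ⟨x, hx⟩ : ∃ x, x = y - s • e := ⟨_, rfl⟩
  have e1 : A e x = ⟪x, x⟫ + s * ⟪e, x⟫ := by
    rw [← hy]; conv_rhs => rw [← real_inner_smul_left, ← inner_add_left, hx]
    simp [hx]
  have e2 : ⟪x, x⟫ = ⟪y, y⟫ - 2 * s * ⟪y, e⟫ + s ^ 2 := by
    simp only [hx, inner_sub_left, inner_sub_right, real_inner_smul_left, real_inner_smul_right, he,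
      real_inner_comm y e]
    ring
  have k1 := h (d • e + x)
  have k2 := h' (d • e - x)
  simp only [map_add, map_sub, map_smul, ContinuousLinearMap.add_apply,
    ContinuousLinearMap.sub_apply, ContinuousLinearMap.smul_apply, smul_eq_mul, inner_add_left,
    inner_add_right, inner_sub_left, inner_sub_right, real_inner_smul_left, real_inner_smul_right,
    hA x e, real_inner_comm e x, he, e1] at k1 k2
  have hp : p = s + d := by linarith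
  have hq : q = s - d := by linarith
  subst hp hq
  have : ⟪x, x⟫ ≤ d ^ 2 := by
    by_contra hc
    push Not at hc
    nlinarith [mul_pos hd0 (sub_pos.2 hc)]
  nlinarith

theorem grad_ineq {X Y z m c d : ℝ} (hX : 0 < X) (hY : 0 < Y) (hz : 0 ≤ z) (hz1 : z ≤ 1)
    (hm : c ^ 2 + d ^ 2 ≤ m) :
    0 ≤ 8 * (1 + z) * (X ^ 2 * c ^ 2 + Y ^ 2 * d ^ 2 + X * Y * (m - c ^ 2 - d ^ 2))
      + (2 * (Y - X) ^ 2 - 8 * z * X * Y) * m := by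
  have k : ∀ a b : ℝ, 0 ≤ 8 * (1 + z) * a ^ 2 + (2 * (b - a) ^ 2 - 8 * z * a * b) := by
    intro a b
    nlinarith [sq_nonneg (b - (1 + 2 * z) * a), mul_nonneg (mul_nonneg (sub_nonneg.2 hz1)
      (by linarith : 0 ≤ 1 + z)) (sq_nonneg a)]
  have k1 := mul_nonneg (k X Y) (sq_nonneg c)
  have k2 := mul_nonneg (k Y X) (sq_nonneg d)
  have k3 : 0 ≤ (8 * X * Y + 2 * (Y - X) ^ 2) * (m - c ^ 2 - d ^ 2) :=
    mul_nonneg (by positivity) (by linarith)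
  nlinarith

end Pool.Agent.Lib.MP_de485e_gt
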