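import Pool.Agent.Lib.MP_de485e_gt.Reparam

/-! Continuity of the pinching defect and the passage from orthonormal to arbitrary pairs. -/

set_option maxSynthPendingDepth 3

open Filter Topology Module Set
open scoped RealInnerProductSpace InnerProduct

namespace Pool.Agent.Lib.MP_de485e_gt

variable {P Q : Type*} [NormedAddCommGroup P] [InnerProductSpace ℝ P] [CompleteSpace P]
  [NormedAddCommGroup Q] [InnerProductSpace ℝ Q] [CompleteSpace Q]
  [FiniteDimensional ℝ P] [FiniteDimensional ℝ Q]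

omit [CompleteSpace P] [FiniteDimensional ℝ P] in
theorem param {V : Type*} [NormedAddCommGroup V] [NormedSpace ℝ V] {I : Set ℝ} {U : Set P}
    (hI : UniqueDiffOn ℝ I) (hU : IsOpen U) {G : ℝ × P → V} {m k : WithTop ℕ∞} (hm : m + 1 ≤ k)
    (h : ContDiffOn ℝ k G (I ×ˢ U)) :
    ContDiffOn ℝ m (fun p : ℝ × P => fderiv ℝ (fun y => G (p.1, y)) p.2) (I ×ˢ U) := by
  refine ((h.fderivWithin (hI.prod hU.uniqueDiffOn) hm).clm_comp
    (contDiffOn_const (c := ContinuousLinearMap.inr ℝ ℝ P))).congr fun p hp => ?_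
  have hk : k ≠ 0 := by rintro rfl; simp at hm
  exact (((h.differentiableOn hk p hp).hasFDerivWithinAt.comp p.2
    (hasFDerivAt_prodMk_right (𝕜 := ℝ) p.1 p.2).hasFDerivWithinAt (s := U)
    fun y hy => mk_mem_prod hp.1 hy).hasFDerivAt (hU.mem_nhds hp.2)).fderiv

omit [FiniteDimensional ℝ Q] in
theorem cont_psi {α : Type*} [TopologicalSpace α] {s : Set α} {a : α} {Z : α → ℝ}
    {L : α → P →L[ℝ] Q} {B : α → P →L[ℝ] P →L[ℝ] Q} {u v : α → P}
    (hZ : ContinuousWithinAt Z s a) (hL : ContinuousWithinAt L s a) (hB : ContinuousWithinAt B s a)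
    (hu : ContinuousWithinAt u s a) (hv : ContinuousWithinAt v s a)
    (hi : Function.Injective (L a)) (hu0 : u a ≠ 0) (hv0 : v a ≠ 0) :
    ContinuousWithinAt (fun x => psi (Z x) (L x) (nz (L x) (B x (u x) (u x)) (u x))
      (nz (L x) (B x (v x) (v x)) (v x))) s a := by
  have ha : ContinuousWithinAt (fun x => (L x)†) s a :=
    (adjL (P := P) (Q := Q)).continuous.continuousAt.comp_continuousWithinAt hL
  have hg : ContinuousWithinAt (fun x => gi (L x)) s a := by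
    obtain ⟨w, hw⟩ := isUnit_gram hi
    exact ContinuousAt.comp_continuousWithinAt (f := fun x => (L x)† ∘L L x)
      (hw ▸ NormedRing.inverse_continuousAt w) (ha.clm_comp hL)
  have hn : ∀ {w : α → P}, ContinuousWithinAt w s a → w a ≠ 0 →
      ContinuousWithinAt (fun x => nz (L x) (B x (w x) (w x)) (w x)) s a := fun hw h0 =>
    (((hL.clm_apply hw).inner (hL.clm_apply hw)).inv₀ fun e =>
      h0 (hi ((inner_self_eq_zero.1 e).trans (map_zero _).symm))).smul
      ((hB.clm_apply hw).clm_apply hw)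
  have hp : ∀ {ξ ζ : α → Q}, ContinuousWithinAt ξ s a → ContinuousWithinAt ζ s a →
      ContinuousWithinAt (fun x => pf (L x) (ξ x) (ζ x)) s a := fun h1 h2 =>
    (h1.inner h2).sub ((ha.clm_apply h1).inner (hg.clm_apply (ha.clm_apply h2)))
  exact (hp ((hn hu hu0).sub (hn hv hv0)) ((hn hu hu0).sub (hn hv hv0))).sub
    (continuousWithinAt_const.mul (hZ.mul (hp (hn hu hu0) (hn hv hv0))))

omit [CompleteSpace P] [FiniteDimensional ℝ Q] in
theorem kS_smul (f : P → Q) (y u : P) {c : ℝ} (hc : c ≠ 0) : kS f y (c • u) = kS f y u := by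
  simp only [kS, nz, hS, map_smul, ContinuousLinearMap.smul_apply, real_inner_smul_left,
    real_inner_smul_right, smul_smul]
  congr 1
  field_simp

theorem Nice.all_pairs {f : P → Q} {y : P} (h : Nice f y) (hd : finrank ℝ Q = finrank ℝ P + 2)
    {Z₀ Z : ℝ} (h0 : 0 ≤ Z₀) (hZ : Z₀ < Z)
    (hp : ∀ u v, ⟪fderiv ℝ f y u, fderiv ℝ f y u⟫ = 1 → ⟪fderiv ℝ f y v, fderiv ℝ f y v⟫ = 1 →
      ⟪fderiv ℝ f y u, fderiv ℝ f y v⟫ = 0 → phi Z₀ f y u v ≤ 0)
    {u v : P} (hu : u ≠ 0) (hv : v ≠ 0) : phi Z f y u v < 0 := by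
  have hf : ⟪f y, f y⟫ = 1 := h.sph.self_of_nhds
  obtain ⟨ν, hν, hνf, hdec⟩ := exists_normal h.inj hf h.perp hd
  obtain ⟨C, hC, hC'⟩ := exists_iso h.inj
  obtain ⟨A, hA⟩ : ∃ A : P →L[ℝ] P →L[ℝ] ℝ, ∀ a b, A a b = ⟪ν, hS f y (C a) (C b)⟫ :=
    ⟨ContinuousLinearMap.compL ℝ P Q ℝ (innerSL ℝ ν ∘L np (fderiv ℝ f y) (f y)) ∘L
      (fderiv ℝ (fderiv ℝ f) y).bilinearComp C C, fun _ _ => rfl⟩
  have hsym : ∀ a b, A a b = A b a := fun a b => by
    rw [hA, hA, hS, hS, h.sm.isSymmSndFDerivAt (by simp) (C a)]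
  have hk : ∀ a, kS f y (C a) = (A a a / ⟪a, a⟫) • ν := by
    intro a
    have e1 : ((fderiv ℝ f y)†) (hS f y (C a) (C a)) = 0 := by
      rw [h.hS_eq, map_add, map_sub, gram_gi h.inj, map_smul, h.perp]; simp
    have e2 : ⟪hS f y (C a) (C a), f y⟫ = 0 := by
      rw [h.hS_eq, inner_add_left, inner_sub_left, h.d2, real_inner_smul_left, hf,
        ← ContinuousLinearMap.adjoint_inner_right _ _ (f y), h.perp]
      simp
    rw [kS, nz, hC', hdec _ e1, e2, zero_smul, add_zero, smul_smul, hA, real_inner_comm ν,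
      div_eq_inv_mul]
  have hphi : ∀ Z a b, phi Z f y (C a) (C b) = Gq Z (A a a / ⟪a, a⟫) (A b b / ⟪b, b⟫) := by
    intro Z a b
    simp only [phi, hk, inner_sub_left, inner_sub_right, real_inner_smul_left,
      real_inner_smul_right, hν, Gq]
    ring
  obtain ⟨u, rfl⟩ := hC u
  obtain ⟨v, rfl⟩ := hC v
  have hu' : u ≠ 0 := fun e => hu (by rw [e, map_zero])
  have hv' : v ≠ 0 := fun e => hv (by rw [e, map_zero])
  have nrm : ∀ w : P, w ≠ 0 → ‖w‖⁻¹ • w ∈ Metric.sphere (0 : P) 1 ∧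
      A (‖w‖⁻¹ • w) (‖w‖⁻¹ • w) = A w w / ⟪w, w⟫ := by
    intro w hw
    have := norm_ne_zero_iff.2 hw
    refine ⟨by simp [norm_smul, this], ?_⟩
    simp only [map_smul, ContinuousLinearMap.smul_apply, smul_eq_mul, real_inner_self_eq_norm_sq]
    field_simp
  have hc : ContinuousOn (fun w => A w w) (Metric.sphere (0 : P) 1) := by fun_prop
  obtain ⟨a, ha, hmax⟩ := (isCompact_sphere (0 : P) 1).exists_isMaxOn ⟨_, (nrm u hu').1⟩ hc
  obtain ⟨b, hb, hmin⟩ := (isCompact_sphere (0 : P) 1).exists_isMinOn ⟨_, (nrm u hu').1⟩ hc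
  have ha' : ⟪a, a⟫ = 1 := by rw [real_inner_self_eq_norm_sq, mem_sphere_zero_iff_norm.1 ha]; simp
  have hb' : ⟪b, b⟫ = 1 := by rw [real_inner_self_eq_norm_sq, mem_sphere_zero_iff_norm.1 hb]; simp
  have k1 : ∀ w, w ≠ 0 → A w w / ⟪w, w⟫ ≤ A a a := fun w hw => (nrm w hw).2 ▸ hmax (nrm w hw).1
  have k2 : ∀ w, w ≠ 0 → A b b ≤ A w w / ⟪w, w⟫ := fun w hw => (nrm w hw).2 ▸ hmin (nrm w hw).1
  have hG : Gq Z₀ (A a a) (A b b) ≤ 0 := by
    by_cases e : A a a = A b b
    · rw [e]; unfold Gq; nlinarith [mul_nonneg h0 (sq_nonneg (A b b))]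
    have e1 := eigen_of_max A hsym (p := A a a) (u := a) (fun w => by
      by_cases hw : w = 0
      · simp [hw]
      · exact (div_le_iff₀ (real_inner_self_pos.2 hw)).1 (k1 w hw)) (by rw [ha', mul_one]) b
    have e2 := eigen_of_max (-A) (fun a b => by simp [hsym a b]) (p := -A b b) (u := b) (fun w => by
      by_cases hw : w = 0
      · simp [hw]
      · simpa using (le_div_iff₀ (real_inner_self_pos.2 hw)).1 (k2 w hw))
      (by rw [hb', mul_one]; rfl) a
    simp only [ContinuousLinearMap.neg_apply, hsym b a, real_inner_comm a b] at e2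
    have hab : ⟪a, b⟫ = 0 :=
      (mul_eq_zero.1 (by linarith : (A a a - A b b) * ⟪a, b⟫ = 0)).resolve_left (sub_ne_zero.2 e)
    have := hp (C a) (C b) (by rw [hC', ha']) (by rw [hC', hb']) (by rw [hC', hab])
    rwa [hphi, ha', hb', div_one, div_one] at this
  rw [hphi]
  have key : ∀ p q : ℝ, Gq Z₀ p q ≤ 0 → Gq Z p q < 0 := by
    intro p q hpq
    unfold Gq at hpq ⊢
    have : 0 < 1 + p * q := by
      by_contra hc
      push Not at hc
      have : (p - q) ^ 2 ≤ 0 := by nlinarith [mul_nonneg h0 (neg_nonneg.2 hc)]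
      have : p = q := by nlinarith
      subst this
      nlinarith
    nlinarith [mul_pos (sub_pos.2 hZ) this]
  refine key _ _ ?_
  rcases le_total (A v v / ⟪v, v⟫) (A u u / ⟪u, u⟫) with c | c
  · exact Gq_mono h0 hG (k2 v hv') c (k1 u hu')
  · have := Gq_mono h0 hG (k2 u hu') c (k1 v hv')
    unfold Gq at this ⊢
    linarith

end Pool.Agent.Lib.MP_de485e_gt
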