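import Pool.Agent.Lib.MP_de485e_gt.Lift

/-! The lifting lemma with hypotheses on derivatives in charts. -/

set_option autoImplicit false

open Set Filter Topology Metric
open scoped RealInnerProductSpace

namespace Pool.Agent.Lib.MP_de485e_gt

theorem local_lip {P W K : Type*} [NormedAddCommGroup P] [NormedSpace ℝ P]
    [FiniteDimensional ℝ P] [NormedAddCommGroup W] [NormedSpace ℝ W] [NormedAddCommGroup K]
    [NormedSpace ℝ K] (f : P → W) (h : P → K) (f1 : P →L[ℝ] W) (h1 : P →L[ℝ] K) (u : P)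
    (hf : HasStrictFDerivAt f f1 u) (hh : HasStrictFDerivAt h h1 u)
    (hinj : Function.Injective h1) (kappa k2 : ℝ) (hk : 0 ≤ kappa) (hk2 : kappa < k2)
    (hb : ∀ X, ‖f1 X‖ ≤ kappa * ‖h1 X‖) :
    ∃ N ∈ 𝓝 u, ∀ a ∈ N, ∀ b ∈ N, ‖f a - f b‖ ≤ k2 * ‖h a - h b‖ := by
  obtain ⟨C, hC, hanti⟩ := (LinearMap.injective_iff_antilipschitz (h1 : P →ₗ[ℝ] K)).1 hinj
  have hC' : (0 : ℝ) < C := hC
  have hlow : ∀ X, ‖X‖ ≤ C * ‖h1 X‖ := fun X => by
    have := hanti.le_mul_dist X 0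
    simpa using this
  have hk20 : 0 < k2 := hk.trans_lt hk2
  set th : ℝ := (k2 - kappa) / (1 + k2) with hth
  have hth0 : 0 < th := div_pos (by linarith) (by linarith)
  have hth1 : th * (1 + k2) = k2 - kappa := div_mul_cancel₀ _ (by linarith)
  have hd : 0 < th / C := div_pos hth0 hC'
  have e1 := (hasStrictFDerivAt_iff_isLittleO.1 hf).def hd
  have e2 := (hasStrictFDerivAt_iff_isLittleO.1 hh).def hd
  obtain ⟨N, hN, hNN⟩ := mem_nhds_prod_iff.1 (e1.and e2) |>.imp fun N hN => hN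
  obtain ⟨N', hN', hsub⟩ := hNN
  refine ⟨N ∩ N', inter_mem hN hN', fun a ha b hb' => ?_⟩
  obtain ⟨a1, a2⟩ := hsub (mk_mem_prod ha.1 hb'.2)
  dsimp only at a1 a2
  have b0 : th / C * ‖a - b‖ ≤ th * ‖h1 (a - b)‖ := by
    have := mul_le_mul_of_nonneg_left (hlow (a - b)) hd.le
    refine this.trans (le_of_eq ?_)
    field_simp
  have b1 : ‖f a - f b‖ ≤ ‖f a - f b - f1 (a - b)‖ + ‖f1 (a - b)‖ := by
    simpa using norm_add_le (f a - f b - f1 (a - b)) (f1 (a - b))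
  have b2 : ‖h1 (a - b)‖ ≤ ‖h a - h b‖ + ‖h a - h b - h1 (a - b)‖ := by
    simpa using norm_sub_le (h a - h b) (h a - h b - h1 (a - b))
  have b3 := hb (a - b)
  have b4 : (1 - th) * ‖h1 (a - b)‖ ≤ ‖h a - h b‖ := by linarith
  have b5 := mul_le_mul_of_nonneg_left b4 hk20.le
  have b6 : k2 * ((1 - th) * ‖h1 (a - b)‖) = (kappa + th) * ‖h1 (a - b)‖ := by
    rw [← mul_assoc]
    congr 1
    linarith
  linarith

theorem strict_smul_proj {E K : Type*} [NormedAddCommGroup E] [NormedSpace ℝ E]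
    [NormedAddCommGroup K] [NormedSpace ℝ K] (pr : E →L[ℝ] K) (a : E → ℝ) (g : E)
    (ha : ContDiffAt ℝ 1 a g) (hg : pr g = 0) :
    HasStrictFDerivAt (fun z => a z • pr z) (a g • pr) g := by
  have h := (ha.hasStrictFDerivAt one_ne_zero).smul (pr.hasStrictFDerivAt (x := g))
  rw [hg] at h
  have e : a g • pr + (fderiv ℝ a g).smulRight (0 : K) = a g • pr := by
    ext X
    simp
  rw [e] at h
  exact h

theorem lift_chart {M P E W : Type*} [TopologicalSpace M] [T2Space M] [CompactSpace M]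
    [ConnectedSpace M] [NormedAddCommGroup P] [NormedSpace ℝ P] [FiniteDimensional ℝ P]
    [NormedAddCommGroup E] [InnerProductSpace ℝ E] [FiniteDimensional ℝ E]
    [NormedAddCommGroup W] [NormedSpace ℝ W]
    (hP : 2 ≤ Module.finrank ℝ P) (hE : Module.finrank ℝ E = Module.finrank ℝ P + 1)
    (G : M → E) (Psi : M → W) (hPsi : Continuous Psi) (x0 : M) (eps kappa k2 : ℝ)
    (hk : 0 ≤ kappa) (hk2 : kappa < k2) (hsmall : 4 * k2 < eps)
    (hU : ∀ x, ‖Psi x - Psi x0‖ < eps → ∃ (c : OpenPartialHomeomorph M P) (G1 : P →L[ℝ] E)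
      (Psi1 : P →L[ℝ] W), x ∈ c.source ∧ HasStrictFDerivAt (G ∘ c.symm) G1 (c x) ∧
      HasStrictFDerivAt (Psi ∘ c.symm) Psi1 (c x) ∧ G x ≠ 0 ∧
      (∀ (X : P) (r : ℝ), G1 X = r • G x → X = 0) ∧
      ∀ (X : P) (r : ℝ), ⟪G x, G1 X - r • G x⟫ = 0 →
        ‖Psi1 X‖ * ‖G x‖ ≤ kappa * ‖G1 X - r • G x‖) :
    (∀ x, ‖Psi x - Psi x0‖ ≤ 4 * k2) ∧ (∀ x, G x ≠ 0) ∧
      BijOn (fun x => ‖G x‖⁻¹ • G x) univ (sphere (0 : E) 1) := by
  classical
  have hk20 : 0 < k2 := hk.trans_lt hk2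
  have hunit : ∀ z : E, z ≠ 0 → ‖z‖⁻¹ • z ∈ sphere (0 : E) 1 := fun z hz => by
    rw [mem_sphere_zero_iff_norm, norm_smul, norm_inv, norm_norm]
    exact inv_mul_cancel₀ (norm_ne_zero_iff.2 hz)
  obtain ⟨-, -, -, -, -, -, hG0, -, -⟩ := hU x0 (by rw [sub_self, norm_zero]; linarith)
  let p : M → sphere (0 : E) 1 := fun x =>
    if h : G x = 0 then ⟨_, hunit _ hG0⟩ else ⟨_, hunit _ h⟩
  have hp : ∀ x, G x ≠ 0 → (p x : E) = ‖G x‖⁻¹ • G x := fun x hx => by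
    simp only [p, dif_neg hx]
  have key := lift_sphere (E := E) (by omega) p (fun x => ‖Psi x - Psi x0‖) (by fun_prop) eps k2
    hk20.le hsmall ?_ x0 (by simp)
  · have hne : ∀ x, G x ≠ 0 := fun x => by
      obtain ⟨-, -, -, -, -, -, h, -, -⟩ := hU x ((key.2 x).trans_lt hsmall)
      exact h
    refine ⟨key.2, hne, fun x _ => hunit _ (hne x), fun x _ y _ hxy => ?_, fun z hz => ?_⟩
    · apply key.1.1
      apply Subtype.ext
      rw [hp x (hne x), hp y (hne y)]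
      exact hxy
    · obtain ⟨x, hx⟩ := key.1.2 ⟨z, hz⟩
      exact ⟨x, mem_univ _, (hp x (hne x)).symm.trans (congrArg Subtype.val hx)⟩
  intro x hx
  obtain ⟨c, G1, Psi1, hxc, hG, hPs, hg, hinj, hb⟩ := hU x hx
  set g := G x with hgdef
  have hgn : ‖g‖ ≠ 0 := norm_ne_zero_iff.2 hg
  have hgpos : 0 < ‖g‖ := norm_pos_iff.2 hg
  have hcx : (G ∘ c.symm) (c x) = g := by simp [c.left_inv hxc, hgdef]
  set v : E := -(‖g‖⁻¹ • g) with hv
  have hv1 : ‖v‖ = 1 := by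
    rw [hv, norm_neg]
    exact mem_sphere_zero_iff_norm.1 (hunit g hg)
  have hv0 : v ≠ 0 := by
    intro h
    rw [h, norm_zero] at hv1
    exact zero_ne_one hv1
  let pr : E →L[ℝ] (ℝ ∙ v)ᗮ := (ℝ ∙ v)ᗮ.orthogonalProjectionOnto
  have hgv : g = (-‖g‖) • v := by
    rw [hv, smul_neg, neg_smul, neg_neg, smul_smul, mul_inv_cancel₀ hgn, one_smul]
  have hprg : pr g = 0 := by
    rw [hgv, map_smul]
    simp only [pr, Submodule.orthogonalProjectionOnto_orthogonalComplement_singleton_eq_zero,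
      smul_zero]
  have hperp : ∀ X, ∃ r : ℝ, ⟪g, G1 X - r • g⟫ = 0 ∧ (pr (G1 X) : E) = G1 X - r • g := by
    intro X
    have h1 : ⟪g, G1 X - (⟪g, G1 X⟫ / ‖g‖ ^ 2) • g⟫ = 0 := by
      rw [inner_sub_right, real_inner_smul_right, real_inner_self_eq_norm_sq]
      field_simp
      ring
    refine ⟨_, h1, ?_⟩
    have h2 : G1 X - (⟪g, G1 X⟫ / ‖g‖ ^ 2) • g ∈ (ℝ ∙ v)ᗮ := by
      rw [Submodule.mem_orthogonal_singleton_iff_inner_right, hv, inner_neg_left,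
        real_inner_smul_left, h1]
      simp
    have h3 := Submodule.orthogonalProjectionOnto_mem_subspace_eq_self (K := (ℝ ∙ v)ᗮ) ⟨_, h2⟩
    have h4 : pr (G1 X - (⟪g, G1 X⟫ / ‖g‖ ^ 2) • g) = pr (G1 X) := by
      rw [map_sub, map_smul, hprg, smul_zero, sub_zero]
    rw [← h4]
    exact congrArg Subtype.val h3
  let A : P →L[ℝ] (ℝ ∙ v)ᗮ := (‖g‖⁻¹ • pr).comp G1
  have hA : ∀ X, A X = ‖g‖⁻¹ • pr (G1 X) := fun X => rfl
  have hAinj : Function.Injective A := by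
    rw [injective_iff_map_eq_zero]
    intro X hX
    rw [hA, smul_eq_zero, or_iff_right (inv_ne_zero hgn)] at hX
    obtain ⟨r, -, hr⟩ := hperp X
    rw [hX] at hr
    exact hinj X r (sub_eq_zero.1 hr.symm)
  have hAb : ∀ X, ‖Psi1 X‖ ≤ kappa * ‖A X‖ := by
    intro X
    obtain ⟨r, hr0, hr⟩ := hperp X
    have h1 := hb X r hr0
    have h2 : ‖A X‖ = ‖g‖⁻¹ * ‖G1 X - r • g‖ := by
      rw [hA, norm_smul, norm_inv, norm_norm, ← hr]
      rfl
    rw [h2, mul_left_comm, ← div_eq_inv_mul, le_div_iff₀ hgpos]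
    exact h1
  have hn1 : ContDiffAt ℝ 1 (fun z : E => ‖z‖⁻¹) g := (contDiffAt_norm ℝ hg).inv hgn
  have hvg : ⟪v, ‖g‖⁻¹ • g⟫ = -1 := by
    have : ‖g‖⁻¹ • g = -v := by rw [hv, neg_neg]
    rw [this, inner_neg_right, real_inner_self_eq_norm_sq, hv1]
    norm_num
  have hn2 : ContDiffAt ℝ 1 (fun z : E => 2 / (1 - ⟪v, ‖z‖⁻¹ • z⟫) * ‖z‖⁻¹) g := by
    refine (contDiffAt_const.div (contDiffAt_const.sub
      (contDiffAt_const.inner ℝ (hn1.smul contDiffAt_id))) ?_).mul hn1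
    change 1 - ⟪v, ‖g‖⁻¹ • g⟫ ≠ 0
    rw [hvg]
    norm_num
  have hq : HasStrictFDerivAt ((fun z => ‖z‖⁻¹ • pr z) ∘ (G ∘ c.symm)) A (c x) := by
    have h := strict_smul_proj pr _ g hn1 hprg
    rw [← hcx] at h
    have h' := h.comp (c x) hG
    rw [hcx] at h'
    exact h'
  have hs : HasStrictFDerivAt
      ((fun z => (2 / (1 - ⟪v, ‖z‖⁻¹ • z⟫) * ‖z‖⁻¹) • pr z) ∘ (G ∘ c.symm)) A (c x) := by
    have h := strict_smul_proj pr _ g hn2 hprg
    have e : 2 / (1 - ⟪v, ‖g‖⁻¹ • g⟫) * ‖g‖⁻¹ = ‖g‖⁻¹ := by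
      rw [hvg]
      norm_num
    rw [e] at h
    have h0 : HasStrictFDerivAt (fun z => (2 / (1 - ⟪v, ‖z‖⁻¹ • z⟫) * ‖z‖⁻¹) • pr z)
        (‖g‖⁻¹ • pr) ((G ∘ c.symm) (c x)) := by
      rw [hcx]
      exact h
    exact h0.comp (c x) hG
  have hdim : Module.finrank ℝ P = Module.finrank ℝ (ℝ ∙ v)ᗮ := by
    have h1 := Submodule.finrank_add_finrank_orthogonal (ℝ ∙ v)
    rw [finrank_span_singleton hv0] at h1
    omega
  let A' : P ≃L[ℝ] (ℝ ∙ v)ᗮ :=
    (LinearMap.linearEquivOfInjective (A : P →ₗ[ℝ] (ℝ ∙ v)ᗮ) hAinj hdim).toContinuousLinearEquiv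
  have hA' : (A' : P →L[ℝ] (ℝ ∙ v)ᗮ) = A := by
    ext X
    rfl
  have : CompleteSpace P := FiniteDimensional.complete ℝ P
  rw [← hA'] at hs
  have hGx : ContinuousAt G x := by
    have h1 : ContinuousAt ((G ∘ c.symm) ∘ c) x := hG.continuousAt.comp (c.continuousAt hxc)
    refine h1.congr ?_
    filter_upwards [c.open_source.mem_nhds hxc] with y hy
    simp [c.left_inv hy]
  have hev : ∀ᶠ y in 𝓝 x, G y ≠ 0 := hGx.eventually_ne hg
  have hpx : ContinuousAt p x := by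
    rw [Topology.IsInducing.subtypeVal.continuousAt_iff]
    have h1 : ContinuousAt (fun y => ‖G y‖⁻¹ • G y) x := (hGx.norm.inv₀ hgn).smul hGx
    refine h1.congr ?_
    filter_upwards [hev] with y hy
    exact (hp y hy).symm
  obtain ⟨O, hO, hOo, hxO⟩ := eventually_nhds_iff.1 hev
  have hloc : IsLocalHomeomorphOn p {x} := by
    refine IsLocalHomeomorphOn.of_comp_left (g := stereographic hv1) ?_ ?_ ?_
    · refine IsLocalHomeomorphOn.mk _ _ ?_
      rintro y rfl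
      refine ⟨(c.trans (hs.toOpenPartialHomeomorph _)).restrOpen O hOo,
        ⟨⟨hxc, hs.mem_toOpenPartialHomeomorph_source⟩, hxO⟩, fun y hy => ?_⟩
      have hy1 : y ∈ c.source := hy.1.1
      have hy2 : G y ≠ 0 := hO y hy.2
      change stereographic hv1 (p y) =
        (2 / (1 - ⟪v, ‖G (c.symm (c y))‖⁻¹ • G (c.symm (c y))⟫) * ‖G (c.symm (c y))‖⁻¹) •
          pr (G (c.symm (c y)))
      rw [c.left_inv hy1, stereographic_apply, hp y hy2, map_smul, smul_smul]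
    · refine (IsLocalHomeomorphOn.OpenPartialHomeomorph.isLocalHomeomorphOn _).mono ?_
      rintro _ ⟨y, rfl, rfl⟩
      rw [stereographic_source, mem_compl_singleton_iff]
      intro h
      have h1 := congrArg Subtype.val h
      rw [hp _ hg] at h1
      have h2 := hvg
      rw [show ‖g‖⁻¹ • g = v from h1, real_inner_self_eq_norm_sq, hv1] at h2
      norm_num at h2
    · rintro y rfl
      exact hpx
  obtain ⟨e, hxe, hpe⟩ := hloc x rfl
  obtain ⟨N, hN, hlip⟩ := local_lip _ _ _ _ _ hPs hq hAinj kappa k2 hk hk2 hAb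
  have hev2 : ∀ᶠ y in 𝓝 x, y ∈ c.source ∧ c y ∈ N ∧ G y ≠ 0 := by
    filter_upwards [c.open_source.mem_nhds hxc, (c.continuousAt hxc).preimage_mem_nhds hN, hev]
      with y h1 h2 h3 using ⟨h1, h2, h3⟩
  obtain ⟨O', hO', hO'o, hxO'⟩ := eventually_nhds_iff.1 hev2
  refine ⟨e.restrOpen O' hO'o, ⟨hxe, hxO'⟩, fun y _ => (congrFun hpe y).symm,
    fun y hy z hz => ?_⟩
  obtain ⟨y1, y2, y3⟩ := hO' y hy.2
  obtain ⟨z1, z2, z3⟩ := hO' z hz.2
  have h1 := hlip _ y2 _ z2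
  simp only [Function.comp_apply, c.left_inv y1, c.left_inv z1] at h1
  have h2 : ‖‖G y‖⁻¹ • pr (G y) - ‖G z‖⁻¹ • pr (G z)‖ ≤ dist (p y) (p z) := by
    rw [← map_smul, ← map_smul, ← map_sub, Subtype.dist_eq, dist_eq_norm, hp y y3, hp z z3]
    exact Submodule.norm_orthogonalProjectionOnto_apply_le _ _
  have h3 := abs_norm_sub_norm_le (Psi y - Psi x0) (Psi z - Psi x0)
  rw [sub_sub_sub_cancel_right] at h3
  exact h3.trans (h1.trans (mul_le_mul_of_nonneg_left h2 hk20.le))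

end Pool.Agent.Lib.MP_de485e_gt
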