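import Mathlib

/-! Mean curvature flow in the unit sphere: definitions. -/

open scoped Manifold ContDiff RealInnerProductSpace

namespace Pool.Agent.Lib.MP_de485e_gt

variable (P : Type) {Q : Type} [NormedAddCommGroup P] [InnerProductSpace ℝ P]
  [NormedAddCommGroup Q] [InnerProductSpace ℝ Q] [FiniteDimensional ℝ Q]
  {M : Type} [TopologicalSpace M] [ChartedSpace P M]

/-- `F` read in the preferred chart at `x`. -/
noncomputable def loc (F : M → Q) (x : M) : P → Q := F ∘ (chartAt P x).symm

/-- The differential of `F` at `x`, read in the preferred chart at `x`. -/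
noncomputable def dF (F : M → Q) (x : M) : P →L[ℝ] Q := fderiv ℝ (loc P F x) (chartAt P x x)

/-- The Hessian of `F` at `x` in the preferred chart at `x`. -/
noncomputable def hess (F : M → Q) (x : M) (u v : P) : Q :=
  fderiv ℝ (fun y => fderiv ℝ (loc P F x) y v) (chartAt P x x) u

/-- The vectors orthogonal to the tangent space of `F` at `x` and to `F x`. -/
noncomputable def normal (F : M → Q) (x : M) : Submodule ℝ Q :=
  (LinearMap.range (dF P F x).toLinearMap ⊔ Submodule.span ℝ {F x})ᗮ

/-- The second fundamental form at `x` of `F` as a map to the unit sphere. -/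
noncomputable def sff (F : M → Q) (x : M) (u v : P) : Q :=
  (normal P F x).starProjection (hess P F x u v)

/-- `F` is a smooth family of immersions into the unit sphere on the time set `I` whose velocity
is the mean curvature vector, the trace of `sff` for the induced metric. -/
structure IsSphereMCF (F : ℝ → M → Q) (I : Set ℝ) : Prop where
  smooth : ContMDiffOn (𝓘(ℝ, ℝ).prod 𝓘(ℝ, P)) 𝓘(ℝ, Q) ∞ (fun p : ℝ × M => F p.1 p.2)
    (I ×ˢ Set.univ)
  sphere : ∀ t ∈ I, ∀ x, ‖F t x‖ = 1
  immersion : ∀ t ∈ I, ∀ x, Function.Injective (dF P (F t) x)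
  flow : ∀ t ∈ I, ∀ x, ∀ b : Fin (Module.finrank ℝ P) → P,
    (Orthonormal ℝ fun i => dF P (F t) x (b i)) →
    HasDerivWithinAt (fun s => F s x) (∑ i, sff P (F t) x (b i) (b i)) I t

/-- For all orthonormal tangent vectors, `|h(u,u) - h(v,v)|^2 ≤ 4 Z (1 + ⟨h(u,u), h(v,v)⟩)`. -/
def Pinched (F : M → Q) (Z : ℝ) : Prop :=
  ∀ x (u v : P), Orthonormal ℝ ![dF P F x u, dF P F x v] →
    ‖sff P F x u u - sff P F x v v‖ ^ 2 ≤ 4 * Z * (1 + ⟪sff P F x u u, sff P F x v v⟫)

/-- `tau < c` at every point: `|h(u,u) - h(v,v)|^2 < c` for all orthonormal tangent vectors. -/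
def TauLt (F : M → Q) (c : ℝ) : Prop :=
  ∀ x (u v : P), Orthonormal ℝ ![dF P F x u, dF P F x v] →
    ‖sff P F x u u - sff P F x v v‖ ^ 2 < c

end Pool.Agent.Lib.MP_de485e_gt
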