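import Pool.Agent.Lib.MP_de485e_gt.Cont
import Pool.Agent.Lib.MP_de485e_gt.Defs

/-! The maximum principle on a closed manifold. -/

set_option maxSynthPendingDepth 3

open Filter Topology Module Set
open scoped RealInnerProductSpace InnerProduct Manifold ContDiff

namespace Pool.Agent.Lib.MP_de485e_gt

variable {P Q : Type} [NormedAddCommGroup P] [InnerProductSpace ℝ P] [CompleteSpace P]
  [NormedAddCommGroup Q] [InnerProductSpace ℝ Q] [CompleteSpace Q]
  [FiniteDimensional ℝ P] [FiniteDimensional ℝ Q] {M : Type} [TopologicalSpace M] [ChartedSpace P M]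

variable (P) in
/-- The flow read in the chart at `c`. -/
noncomputable def gc (F : ℝ → M → Q) (c : M) (p : ℝ × P) : Q := F p.1 ((chartAt P c).symm p.2)

omit [CompleteSpace P] in
theorem sff_eq {F : M → Q} {x : M} (hF : ContDiffAt ℝ 2 (loc P F x) (chartAt P x x)) (u v : P) :
    sff P F x u v = hS (loc P F x) (chartAt P x x) u v := by
  have : hess P F x u v = fderiv ℝ (fderiv ℝ (loc P F x)) (chartAt P x x) u v := by
    rw [hess, fderiv_clm_apply ((hF.fderiv_right (m := 1) (by norm_num)).differentiableAt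
      (by norm_num)) (differentiableAt_const v)]
    simp
  unfold sff hS np normal dF
  simp only [this, loc, Function.comp_apply, (chartAt P x).left_inv (mem_chart_source _ x)]

variable [IsManifold 𝓘(ℝ, P) ∞ M] {F : ℝ → M → Q} {I : Set ℝ}

namespace IsSphereMCF

variable (h : IsSphereMCF P F I)
include h

theorem sm (c : M) : ContDiffOn ℝ ∞ (gc P F c) (I ×ˢ (chartAt P c).target) := by
  rw [← contMDiffOn_iff_contDiffOn]
  refine h.smooth.comp (f := fun p : ℝ × P => (p.1, (chartAt P c).symm p.2)) ?_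
    fun p hp => mk_mem_prod hp.1 (mem_univ _)
  exact contDiff_fst.contMDiff.contMDiffOn.prodMk ((contMDiffOn_chart_symm (I := 𝓘(ℝ, P))).comp
    contDiff_snd.contMDiff.contMDiffOn fun p hp => hp.2)

theorem sm2 (c : M) {t : ℝ} (ht : t ∈ I) {y : P} (hy : y ∈ (chartAt P c).target) :
    ContDiffAt ℝ 2 (fun y => gc P F c (t, y)) y :=
  (((h.sm c).comp (contDiff_const.prodMk contDiff_id).contDiffOn
    fun _ hw => mk_mem_prod ht hw).contDiffAt
    ((chartAt P c).open_target.mem_nhds hy)).of_le (by norm_cast)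

theorem transfer (c : M) {t : ℝ} (ht : t ∈ I) {x : M} (hx : x ∈ (chartAt P c).source) :
    Nice (fun y => gc P F c (t, y)) (chartAt P c x) ∧
    ∃ A : P →L[ℝ] P, Function.Bijective A ∧
      dF P (F t) x = fderiv ℝ (fun y => gc P F c (t, y)) (chartAt P c x) ∘L A ∧
      (∀ u v, sff P (F t) x u v = hS (fun y => gc P F c (t, y)) (chartAt P c x) (A u) (A v)) ∧
      ∀ Z u v, phi Z (fun y => gc P F x (t, y)) (chartAt P x x) u v =
        phi Z (fun y => gc P F c (t, y)) (chartAt P c x) (A u) (A v) := by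
  have hy := (chartAt P c).map_source hx
  have e0 := (chartAt P x).left_inv (mem_chart_source _ x)
  have c1 : ContMDiffAt 𝓘(ℝ, P) 𝓘(ℝ, P) ∞ (chartAt P x).symm (chartAt P x x) :=
    contMDiffOn_chart_symm.contMDiffAt
      ((chartAt P x).open_target.mem_nhds (mem_chart_target _ x))
  have c2 : ContMDiffAt 𝓘(ℝ, P) 𝓘(ℝ, P) ∞ (chartAt P c)
      ((chartAt P x).symm (chartAt P x x)) := by
    rw [e0]; exact contMDiffOn_chart.contMDiffAt ((chartAt P c).open_source.mem_nhds hx)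
  have key := reparam (f := fun y => gc P F c (t, y)) (f' := fun y => gc P F x (t, y))
    (ψ := chartAt P c ∘ (chartAt P x).symm) (z := chartAt P x x)
    (by rw [Function.comp_apply, e0]; exact h.sm2 c ht hy)
    ((contMDiffAt_iff_contDiffAt.1 (c2.comp _ c1)).of_le (by norm_cast))
    (by
      filter_upwards [c1.continuousAt.eventually ((chartAt P c).open_source.mem_nhds
        (by rw [e0]; exact hx))] with w hw
      simp only [gc, Function.comp_apply, (chartAt P c).left_inv hw])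
    (h.immersion t ht x)
  rw [Function.comp_apply, e0] at key
  obtain ⟨A, hA, k1, k2, k3⟩ := key
  refine ⟨⟨h.sm2 c ht hy, Eventually.of_forall fun w => ?_, fun a b hab => ?_⟩, A, hA, k1,
    fun u v => (sff_eq (h.sm2 x ht (mem_chart_target _ x)) _ _).trans (k2 u v), k3⟩
  · rw [real_inner_self_eq_norm_sq, gc, h.sphere t ht]; simp
  · obtain ⟨a, rfl⟩ := hA.2 a
    obtain ⟨b, rfl⟩ := hA.2 b
    have : dF P (F t) x a = dF P (F t) x b := by
      unfold dF; erw [k1]; exact hab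
    rw [h.immersion t ht x this]

theorem nice (c : M) {t : ℝ} (ht : t ∈ I) {y : P} (hy : y ∈ (chartAt P c).target) :
    Nice (fun y => gc P F c (t, y)) y := by
  have := (h.transfer c ht ((chartAt P c).map_target hy)).1
  rwa [(chartAt P c).right_inv hy] at this

theorem cont (hI : UniqueDiffOn ℝ I) (c : M) {Z : ℝ → ℝ} (hZ : Continuous Z)
    {a : (ℝ × P) × P × P} (ha : a.1 ∈ I ×ˢ (chartAt P c).target) (hu : a.2.1 ≠ 0)
    (hv : a.2.2 ≠ 0) : ContinuousWithinAt (fun w : (ℝ × P) × P × P =>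
      phi (Z w.1.1) (fun y => gc P F c (w.1.1, y)) w.1.2 w.2.1 w.2.2)
      ((I ×ˢ (chartAt P c).target) ×ˢ univ) a := by
  have h1 := param hI (chartAt P c).open_target (m := 1) (by norm_cast) (h.sm c)
  have h2 := param hI (chartAt P c).open_target (m := 0) (by norm_num) h1
  have hm : MapsTo Prod.fst ((I ×ˢ (chartAt P c).target) ×ˢ (univ : Set (P × P)))
    (I ×ˢ (chartAt P c).target) := fun _ hw => hw.1
  refine (cont_psi (s := (I ×ˢ (chartAt P c).target) ×ˢ univ) (a := a)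
    (Z := fun w => Z w.1.1) (u := fun w => w.2.1) (v := fun w => w.2.2)
    (Continuous.continuousWithinAt (by fun_prop))
    ((h1.continuousOn _ ha).comp continuousWithinAt_fst hm)
    ((h2.continuousOn _ ha).comp continuousWithinAt_fst hm)
    (Continuous.continuousWithinAt (by fun_prop)) (Continuous.continuousWithinAt (by fun_prop))
    (h.nice c ha.1 ha.2).inj hu hv).congr_of_eventuallyEq ?_ ((h.nice c ha.1 ha.2).phi_eq _ hu hv)
  have e1 : ∀ᶠ w : (ℝ × P) × P × P in 𝓝 a, w.2.1 ≠ 0 :=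
    (Continuous.continuousAt (by fun_prop)).eventually_ne hu
  have e2 : ∀ᶠ w : (ℝ × P) × P × P in 𝓝 a, w.2.2 ≠ 0 :=
    (Continuous.continuousAt (by fun_prop)).eventually_ne hv
  filter_upwards [self_mem_nhdsWithin, mem_nhdsWithin_of_mem_nhds e1,
    mem_nhdsWithin_of_mem_nhds e2] with w hw k1 k2
  exact (h.nice c hw.1.1 hw.1.2).phi_eq _ k1 k2

theorem open_good [CompactSpace M] (hI : UniqueDiffOn ℝ I) {Z : ℝ → ℝ} (hZ : Continuous Z) {t : ℝ}
    (ht : t ∈ I) (hg : ∀ x u v, u ≠ 0 → v ≠ 0 →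
      phi (Z t) (fun y => gc P F x (t, y)) (chartAt P x x) u v < 0) :
    ∀ᶠ s in 𝓝 t, s ∈ I → ∀ x u v, u ≠ 0 → v ≠ 0 →
      phi (Z s) (fun y => gc P F x (s, y)) (chartAt P x x) u v < 0 := by
  suffices H : ∀ᶠ s in 𝓝 t, ∀ x ∈ (univ : Set M), s ∈ I → ∀ u v, u ≠ 0 → v ≠ 0 →
      phi (Z s) (fun y => gc P F x (s, y)) (chartAt P x x) u v < 0 from
    H.mono fun s hs hI x => hs x (mem_univ x) hI
  refine isCompact_univ.eventually_forall_of_forall_eventually fun c _ => ?_
  have ne : ∀ w ∈ Metric.sphere (0 : P) 1, w ≠ 0 := fun w hw e => by simp [e] at hw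
  have H : ∀ᶠ p in 𝓝 (t, chartAt P c c), ∀ w ∈ Metric.sphere (0 : P) 1 ×ˢ
      Metric.sphere (0 : P) 1, p ∈ I ×ˢ (chartAt P c).target →
      phi (Z p.1) (fun y => gc P F c (p.1, y)) p.2 w.1 w.2 < 0 := by
    refine ((isCompact_sphere _ _).prod
      (isCompact_sphere _ _)).eventually_forall_of_forall_eventually fun w hw => ?_
    have := (h.cont hI c hZ (a := ((t, chartAt P c c), w))
      (mk_mem_prod ht (mem_chart_target _ c)) (ne _ hw.1) (ne _ hw.2)).eventually
      (gt_mem_nhds (hg c _ _ (ne _ hw.1) (ne _ hw.2)))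
    exact (eventually_nhdsWithin_iff.1 this).mono fun z hz hp => hz (mk_mem_prod hp (mem_univ _))
  have T : Tendsto (fun z : ℝ × M => (z.1, chartAt P c z.2)) (𝓝 (t, c))
      (𝓝 (t, chartAt P c c)) :=
    continuousAt_fst.prodMk (((chartAt P c).continuousAt (mem_chart_source _ c)).comp_of_eq
      continuousAt_snd rfl)
  filter_upwards [T.eventually H, continuousAt_snd.eventually (chart_source_mem_nhds P c)]
    with z h1 h2 hz u v hu hv
  obtain ⟨-, A, hA, -, -, k⟩ := h.transfer c hz h2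
  have hu' : ‖A u‖ ≠ 0 := norm_ne_zero_iff.2 fun e => hu (hA.1 (e.trans (map_zero A).symm))
  have hv' : ‖A v‖ ≠ 0 := norm_ne_zero_iff.2 fun e => hv (hA.1 (e.trans (map_zero A).symm))
  have := h1 (‖A u‖⁻¹ • A u, ‖A v‖⁻¹ • A v)
    (mk_mem_prod (by simp [norm_smul, hu']) (by simp [norm_smul, hv']))
    (mk_mem_prod hz ((chartAt P c).map_source h2))
  rw [k]
  simpa only [phi, kS_smul _ _ _ (inv_ne_zero hu'), kS_smul _ _ _ (inv_ne_zero hv')] using this

end IsSphereMCF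

theorem strict [CompactSpace M] (hd : finrank ℝ Q = finrank ℝ P + 2) {T : ℝ}
    (h : IsSphereMCF P F (Ico 0 T))
    {a c : ℝ} (ha : 0 < a) (ha1 : a ≤ 1) (hc : -(2 * finrank ℝ P) < c) (hc0 : c ≤ 0)
    (h0 : ∀ x u v, u ≠ 0 → v ≠ 0 → phi a (fun y => gc P F x (0, y)) (chartAt P x x) u v < 0)
    {t : ℝ} (ht : t ∈ Ico 0 T) : ∀ x u v, u ≠ 0 → v ≠ 0 →
      phi (a * Real.exp (c * t)) (fun y => gc P F x (t, y)) (chartAt P x x) u v < 0 := by
  obtain ⟨Z, hZ⟩ : ∃ Z : ℝ → ℝ, Z = fun s => a * Real.exp (c * s) := ⟨_, rfl⟩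
  have hZc : Continuous Z := by rw [hZ]; fun_prop
  obtain ⟨G, hG⟩ : ∃ G : ℝ → Prop, ∀ s, G s ↔ ∀ x u v, u ≠ 0 → v ≠ 0 →
    phi (Z s) (fun y => gc P F x (s, y)) (chartAt P x x) u v < 0 := ⟨_, fun _ => Iff.rfl⟩
  suffices G t by simpa only [hG, hZ] using this
  by_contra hbad
  have hI := uniqueDiffOn_Ico 0 T
  have sub : Icc 0 t ⊆ Ico 0 T := Icc_subset_Ico_right ht.2
  have hcl : IsClosed (Icc 0 t ∩ {s | ¬ G s}) := by
    refine isClosed_of_closure_subset fun s hs => ?_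
    have hs' : s ∈ Icc 0 t := closure_minimal inter_subset_left isClosed_Icc hs
    refine ⟨hs', fun hgs => ?_⟩
    obtain ⟨r, hr, hr'⟩ := mem_closure_iff_nhds.1 hs _ (h.open_good hI hZc (sub hs') ((hG s).1 hgs))
    exact hr'.2 ((hG r).2 (hr (sub hr'.1)))
  obtain ⟨t₀, ⟨ht₀, hb⟩, hmin⟩ := (isCompact_Icc.of_isClosed_subset hcl
    inter_subset_left).exists_isLeast ⟨t, ⟨ht.1, le_rfl⟩, hbad⟩
  have hpos : 0 < t₀ := lt_of_le_of_ne ht₀.1 (by
    rintro rfl
    exact hb ((hG 0).2 (by simpa only [hZ, mul_zero, Real.exp_zero, mul_one] using h0)))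
  have hlt : ∀ s, 0 ≤ s → s < t₀ → G s := fun s h1 h2 => by
    by_contra hs
    exact h2.not_ge (hmin ⟨⟨h1, h2.le.trans ht₀.2⟩, hs⟩)
  have hT : t₀ < T := (sub ht₀).2
  simp only [mem_setOf_eq, hG, not_forall, not_lt] at hb
  obtain ⟨x, u, v, hu, hv, hb⟩ := hb
  have nb : Ioo 0 T ×ˢ (chartAt P x).target ∈ 𝓝 (t₀, chartAt P x x) :=
    prod_mem_nhds (Ioo_mem_nhds hpos hT)
      ((chartAt P x).open_target.mem_nhds (mem_chart_target _ x))
  have hlt' : ∀ s y, 0 ≤ s → s < t₀ → y ∈ (chartAt P x).target → ∀ u v, u ≠ 0 → v ≠ 0 →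
      phi (Z s) (fun y => gc P F x (s, y)) y u v ≤ 0 := by
    intro s y h1 h2 hy u v hu hv
    obtain ⟨-, A, hA, -, -, k⟩ := h.transfer x ⟨h1, h2.trans hT⟩ ((chartAt P x).map_target hy)
    obtain ⟨u, rfl⟩ := hA.2 u
    obtain ⟨v, rfl⟩ := hA.2 v
    have := (hG s).1 (hlt s h1 h2) ((chartAt P x).symm y) u v
      (fun e => hu (by rw [e, map_zero])) fun e => hv (by rw [e, map_zero])
    rw [k, (chartAt P x).right_inv hy] at this
    exact this.le
  have hJ : Jet (fun s => Z (t₀ + s)) (Z t₀) (c * Z t₀) (c * (c * Z t₀)) := by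
    have d : ∀ s, HasDerivAt (fun s => Z (t₀ + s)) (c * Z (t₀ + s)) s := fun s => by
      rw [hZ]
      exact (((((hasDerivAt_id s).const_add t₀).const_mul c).exp).const_mul a).congr_deriv
        (by simp only [id]; ring)
    exact ⟨by simp, fun s => c * Z (t₀ + s), Eventually.of_forall d, by simp,
      by simpa using (d 0).const_mul c⟩
  have hZ0 : 0 < Z t₀ := by rw [hZ]; positivity
  refine chart_contra (stdOrthonormalBasis ℝ P) hd (g := gc P F x) (t₀ := t₀)
    (y₀ := chartAt P x x)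
    (((h.sm x).contDiffAt (mem_of_superset nb (prod_mono_left Ioo_subset_Ico_self))).of_le
      (by norm_cast)) ?_ (h.immersion t₀ (sub ht₀) x) ?_ hJ hZ0 ?_
      (by nlinarith) ?_ ⟨u, v, hu, hv, hb⟩
  · filter_upwards [nb] with p hp
    rw [real_inner_self_eq_norm_sq, gc, h.sphere _ (Ioo_subset_Ico_self hp.1)]; simp
  · filter_upwards [nb] with p hp b hb
    obtain ⟨-, A, hA, k1, k2, -⟩ := h.transfer x (Ioo_subset_Ico_self hp.1)
      ((chartAt P x).map_target hp.2)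
    rw [(chartAt P x).right_inv hp.2] at k1 k2
    choose b' hb' using fun i => hA.2 (b i)
    have := (h.flow _ (Ioo_subset_Ico_self hp.1) ((chartAt P x).symm p.2) b'
      (by simpa only [k1, ContinuousLinearMap.comp_apply, hb'] using hb)).hasDerivAt
      (Ico_mem_nhds hp.1.1 hp.1.2)
    simp only [k2, hb'] at this
    exact this
  · rw [hZ]
    exact mul_le_one₀ ha1 (Real.exp_pos _).le
      (Real.exp_le_one_iff.2 (mul_nonpos_of_nonpos_of_nonneg hc0 hpos.le))
  · filter_upwards [nb] with p hp hle u v hu hv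
    rcases hle.lt_or_eq with hl | he
    · exact hlt' _ _ hp.1.1.le hl hp.2 u v hu hv
    have hp1 : 0 < p.1 := hp.1.1
    have T1 : Tendsto (fun s : ℝ => ((s, p.2), u, v)) (𝓝[<] p.1)
        (𝓝[(Ico 0 T ×ˢ (chartAt P x).target) ×ˢ univ] (p, u, v)) := by
      refine tendsto_nhdsWithin_iff.2 ⟨tendsto_nhdsWithin_of_tendsto_nhds
        (Continuous.tendsto' (by fun_prop) _ _ rfl), ?_⟩
      filter_upwards [Ioo_mem_nhdsLT hp1] with s hs
      exact mk_mem_prod (mk_mem_prod ⟨hs.1.le, hs.2.trans hp.1.2⟩ hp.2) (mem_univ _)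
    refine le_of_tendsto ((h.cont hI x hZc (a := (p, u, v))
      (mk_mem_prod (Ioo_subset_Ico_self hp.1) hp.2) hu hv).tendsto.comp T1) ?_
    filter_upwards [Ioo_mem_nhdsLT hp1] with s hs
    exact hlt' s p.2 hs.1.le (he ▸ hs.2) hp.2 u v hu hv

omit [CompleteSpace P] [IsManifold 𝓘(ℝ, P) ∞ M] in
theorem pinched_iff {F : M → Q} (hF : ∀ x, ContDiffAt ℝ 2 (loc P F x) (chartAt P x x)) (Z : ℝ) :
    Pinched P F Z ↔ ∀ x u v,
    ⟪dF P F x u, dF P F x u⟫ = 1 → ⟪dF P F x v, dF P F x v⟫ = 1 → ⟪dF P F x u, dF P F x v⟫ = 0 →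
    phi Z (loc P F x) (chartAt P x x) u v ≤ 0 := by
  refine forall₃_congr fun x u v => ?_
  have key : ⟪dF P F x u, dF P F x u⟫ = 1 → ⟪dF P F x v, dF P F x v⟫ = 1 →
      phi Z (loc P F x) (chartAt P x x) u v =
      ‖sff P F x u u - sff P F x v v‖ ^ 2 - 4 * Z * (1 + ⟪sff P F x u u, sff P F x v v⟫) := by
    intro hu hv
    unfold dF at hu hv
    simp only [phi, kS, nz, hu, hv, inv_one, one_smul, sff_eq (hF x), real_inner_self_eq_norm_sq,
      mul_assoc]
  have k : ∀ w : Q, ⟪w, w⟫ = 1 ↔ ‖w‖ = 1 := fun w => by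
    rw [real_inner_self_eq_norm_sq, pow_eq_one_iff_of_nonneg (norm_nonneg _) two_ne_zero]
  rw [orthonormal_vecCons_iff, orthonormal_vecCons_iff]
  constructor
  · intro H hu hv huv
    rw [key hu hv, sub_nonpos]
    exact H ⟨(k _).1 hu, by simpa using huv, (k _).1 hv, by simp, by simp⟩
  · rintro H ⟨hu, huv, hv, -⟩
    rw [← sub_nonpos, ← key ((k _).2 hu) ((k _).2 hv)]
    exact H ((k _).2 hu) ((k _).2 hv) (huv 0)

theorem preserved [CompactSpace M] {n : ℕ} (hP : finrank ℝ P = n) (hQ : finrank ℝ Q = n + 2)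
    {T : ℝ} (hn : 1 ≤ n)
    (h : IsSphereMCF P F (Ico 0 T)) {Z : ℝ} (hZ : 0 ≤ Z) (hZ1 : Z < 1) (h0 : Pinched P (F 0) Z)
    {t : ℝ} (ht : t ∈ Ico 0 T) : Pinched P (F t) (Z * Real.exp (-(2 * n * t))) := by
  subst hP
  have h00 : (0 : ℝ) ∈ Ico 0 T := ⟨le_rfl, ht.1.trans_lt ht.2⟩
  rw [pinched_iff fun x => h.sm2 x h00 (mem_chart_target _ x)] at h0
  rw [pinched_iff fun x => h.sm2 x ht (mem_chart_target _ x)]
  intro x u v hu hv _
  have hu' : u ≠ 0 := fun e => by simp [e] at hu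
  have hv' : v ≠ 0 := fun e => by simp [e] at hv
  have hn' : (1 : ℝ) ≤ finrank ℝ P := by exact_mod_cast hn
  have T1 : Tendsto (fun ε : ℝ => phi ((Z + ε) * Real.exp ((ε - 2 * finrank ℝ P) * t))
      (loc P (F t) x) (chartAt P x x) u v) (𝓝[>] 0)
      (𝓝 (phi (Z * Real.exp (-(2 * finrank ℝ P * t))) (loc P (F t) x)
        (chartAt P x x) u v)) := by
    refine tendsto_nhdsWithin_of_tendsto_nhds (Continuous.tendsto' ?_ _ _ (by simp))
    unfold phi; fun_prop
  refine le_of_tendsto T1 ?_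
  filter_upwards [Ioo_mem_nhdsGT (sub_pos.2 hZ1)] with ε hε
  exact (strict hQ h (by linarith [hε.1]) (by linarith [hε.2]) (by linarith [hε.1])
    (by linarith [hε.2]) (fun x u v hu hv => (h.nice x h00 (mem_chart_target _ x)).all_pairs
      hQ hZ (by linarith [hε.1]) (h0 x) hu hv) ht x u v hu' hv').le

end Pool.Agent.Lib.MP_de485e_gt
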