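import Pool.Agent.Lib.MP_de485e_gt.Alg

/-! The gradient terms have the good sign. -/

open scoped RealInnerProductSpace

namespace Pool.Agent.Lib.MP_de485e_gt

variable {P : Type*} [NormedAddCommGroup P] [InnerProductSpace ℝ P]

theorem good_half {n : ℕ} (e : OrthonormalBasis (Fin n) ℝ P) (t : P → P → P → ℝ)
    (hsum : ∀ x b c, ∑ j, ⟪x, e j⟫ * t (e j) b c = t x b c)
    (hadd : ∀ a b c c', t a b (c + c') = t a b c + t a b c')
    (hsmul : ∀ a b c (r : ℝ), t a b (r • c) = r * t a b c) {u v a' a'' : P} (hu : ⟪u, u⟫ = 1)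
    (hv : ⟪v, v⟫ = 1) (huv : ⟪u, v⟫ = 0) (c₁ c₂ : ℝ) :
    ∑ j, (c₁ * t (e j) u (⟪u, e j⟫ • a' + ⟪v, e j⟫ • a'') -
      c₂ * ⟪⟪u, e j⟫ • a' + ⟪v, e j⟫ • a'', ⟪u, e j⟫ • a' + ⟪v, e j⟫ • a''⟫) =
      c₁ * (t u u a' + t v u a'') - c₂ * (⟪a', a'⟫ + ⟪a'', a''⟫) := by
  have k : ∀ x y : P, ∑ j, ⟪x, e j⟫ * ⟪y, e j⟫ = ⟪x, y⟫ := fun x y => by
    simpa only [real_inner_comm y] using e.sum_inner_mul_inner x y
  have : ∀ j, c₁ * t (e j) u (⟪u, e j⟫ • a' + ⟪v, e j⟫ • a'') -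
      c₂ * ⟪⟪u, e j⟫ • a' + ⟪v, e j⟫ • a'', ⟪u, e j⟫ • a' + ⟪v, e j⟫ • a''⟫ =
      c₁ * (⟪u, e j⟫ * t (e j) u a') + c₁ * (⟪v, e j⟫ * t (e j) u a'')
        - c₂ * ⟪a', a'⟫ * (⟪u, e j⟫ * ⟪u, e j⟫) - 2 * c₂ * ⟪a', a''⟫ * (⟪u, e j⟫ * ⟪v, e j⟫)
        - c₂ * ⟪a'', a''⟫ * (⟪v, e j⟫ * ⟪v, e j⟫) := by
    intro j
    simp only [hadd, hsmul, inner_add_left, inner_add_right, real_inner_smul_left,
      real_inner_smul_right, real_inner_comm a' a'']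
    ring
  simp only [this, Finset.sum_sub_distrib, Finset.sum_add_distrib, ← Finset.mul_sum, hsum, k, hu,
    hv, huv]
  ring

theorem good_sum {n : ℕ} (e : OrthonormalBasis (Fin n) ℝ P) (t : P → P → P → ℝ)
    (h12 : ∀ a b c, t a b c = t b a c) (h23 : ∀ a b c, t a b c = t a c b)
    (hadd : ∀ a b c c', t a b (c + c') = t a b c + t a b c')
    (hsmul : ∀ a b c (r : ℝ), t a b (r • c) = r * t a b c) {u v : P} (hu : ⟪u, u⟫ = 1)
    (hv : ⟪v, v⟫ = 1) (huv : ⟪u, v⟫ = 0) {X Y D z : ℝ} (hX : 0 < X) (hY : 0 < Y) (hD : 0 < D)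
    (hXY : X + Y = 4 * D * (1 + z)) (hz : 0 ≤ z) (hz1 : z ≤ 1)
    (h1 : ∀ w, X * t w u u = Y * t w v v) :
    ∃ a b : Fin n → P, (∀ j, ⟪u, a j⟫ = 0) ∧ (∀ j, ⟪v, b j⟫ = 0) ∧
      0 ≤ ∑ j, ((4 * X * t (e j) u (a j) - 2 * X * D * ⟪a j, a j⟫)
        + (-4 * Y * t (e j) v (b j) - 2 * Y * D * ⟪b j, b j⟫)
        + (2 * (t (e j) u u - t (e j) v v) ^ 2 - 8 * z * (t (e j) u u * t (e j) v v))) := by
  have h13 : ∀ a b c, t a b c = t b c a := fun a b c => by rw [h12, h23]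
  have hsum : ∀ x b c, ∑ j, ⟪x, e j⟫ * t (e j) b c = t x b c := by
    intro x b c
    let φ : P →ₗ[ℝ] ℝ := ⟨⟨t b c, hadd b c⟩, fun r w => hsmul b c w r⟩
    have : φ x = φ (∑ j, ⟪e j, x⟫ • e j) := by rw [e.sum_repr']
    rw [map_sum] at this
    rw [h13 x, show t b c x = φ x from rfl, this]
    refine Finset.sum_congr rfl fun j _ => ?_
    rw [map_smul, h13 (e j), real_inner_comm]; rfl
  obtain ⟨w, hw⟩ : ∃ w : P, ∀ x, t x v v = X * ⟪w, x⟫ := by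
    refine ⟨X⁻¹ • ∑ j, t (e j) v v • e j, fun x => ?_⟩
    rw [real_inner_smul_left, sum_inner, ← hsum x, mul_inv_cancel_left₀ hX.ne']
    refine Finset.sum_congr rfl fun j _ => ?_
    rw [real_inner_smul_left, real_inner_comm, mul_comm]
  have hw' : ∀ x, t x u u = Y * ⟪w, x⟫ := fun x =>
    mul_left_cancel₀ hX.ne' (by rw [h1, hw]; ring)
  have hvu : ⟪v, u⟫ = 0 := by rw [real_inner_comm, huv]
  obtain ⟨c, hc⟩ : ∃ c, c = ⟪w, u⟫ := ⟨_, rfl⟩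
  obtain ⟨d, hd⟩ : ∃ d, d = ⟪w, v⟫ := ⟨_, rfl⟩
  obtain ⟨m, hm⟩ : ∃ m, m = ⟪w, w⟫ := ⟨_, rfl⟩
  have hc' : ⟪u, w⟫ = c := by rw [hc, real_inner_comm]
  have hd' : ⟪v, w⟫ = d := by rw [hd, real_inner_comm]
  have bes : c ^ 2 + d ^ 2 ≤ m := by
    have := real_inner_self_nonneg (x := w - c • u - d • v)
    simp only [inner_sub_left, inner_sub_right, real_inner_smul_left, real_inner_smul_right, hu, hv,
      huv, hvu, ← hc, ← hd, ← hm, hc', hd'] at this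
    nlinarith
  refine ⟨fun j => ⟪u, e j⟫ • ((Y / D) • (w - c • u)) + ⟪v, e j⟫ • ((X * c / D) • v),
    fun j => ⟪v, e j⟫ • ((-X / D) • (w - d • v)) + ⟪u, e j⟫ • ((-Y * d / D) • u),
    fun j => ?_, fun j => ?_, ?_⟩
  · simp only [inner_add_right, inner_sub_right, real_inner_smul_right, hu, huv, hc']; ring
  · simp only [inner_add_right, inner_sub_right, real_inner_smul_right, hv, hvu, hd']; ring
  rw [Finset.sum_add_distrib, Finset.sum_add_distrib,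
    good_half e t hsum hadd hsmul hu hv huv, good_half e t hsum hadd hsmul hv hu hvu]
  have s3 : ∑ j, (2 * (t (e j) u u - t (e j) v v) ^ 2 - 8 * z * (t (e j) u u * t (e j) v v)) =
      (2 * (Y - X) ^ 2 - 8 * z * X * Y) * m := by
    rw [hm, ← e.sum_inner_mul_inner w w, Finset.mul_sum]
    refine Finset.sum_congr rfl fun j _ => ?_
    rw [hw, hw', real_inner_comm w (e j)]; ring
  rw [s3, ← h13 _ u u, ← h13 _ v v, hsmul, hsmul, h23 v u v, ← h13 u v v, h23 u v u, ← h13 v u u,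
    hw, hw, hw', hw']
  simp only [inner_sub_left, inner_sub_right, real_inner_smul_left, real_inner_smul_right, hu, hv,
    ← hc, ← hd, ← hm, hc', hd']
  refine (grad_ineq hX hY hz hz1 bes).trans_eq ?_
  have : 8 * (1 + z) = 2 * (X + Y) / D := by rw [hXY]; field_simp; ring
  rw [this]; field_simp; ring

end Pool.Agent.Lib.MP_de485e_gt
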