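import Pool.Agent.Lib.MP_de485e_gt.Alg

/-! Jets of a moving graph over the tangent plane. -/

set_option maxSynthPendingDepth 3

open Filter Topology Module
open scoped RealInnerProductSpace InnerProduct

namespace Pool.Agent.Lib.MP_de485e_gt

section calculus

variable {X V V' : Type*} [NormedAddCommGroup X] [NormedSpace ℝ X] [NormedAddCommGroup V]
  [NormedSpace ℝ V] [NormedAddCommGroup V'] [NormedSpace ℝ V']

theorem fd_zero {Ψ : X → V} (hΨ : Differentiable ℝ Ψ) (A : V →L[ℝ] V') {x₀ : X} {c : V'}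
    (h : ∀ᶠ x in 𝓝 x₀, A (Ψ x) = c) : ∀ᶠ x in 𝓝 x₀, ∀ a, A (fderiv ℝ Ψ x a) = 0 := by
  filter_upwards [h.eventually_nhds] with x hx a
  have := (A.hasFDerivAt.comp x (hΨ x).hasFDerivAt).unique
    ((hasFDerivAt_const c x).congr_of_eventuallyEq hx)
  exact congrArg (fun T : X →L[ℝ] V' => T a) this

theorem sym2 {Φ : X → V} (h : ContDiff ℝ 2 Φ) (x a b : X) :
    fderiv ℝ (fderiv ℝ Φ) x a b = fderiv ℝ (fderiv ℝ Φ) x b a :=
  (h.contDiffAt.isSymmSndFDerivAt (by simp)) a b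

theorem sym3 {Φ : X → V} (h : ContDiff ℝ 3 Φ) (x a b c : X) :
    fderiv ℝ (fderiv ℝ (fderiv ℝ Φ)) x a b c = fderiv ℝ (fderiv ℝ (fderiv ℝ Φ)) x a c b := by
  have h2 : Differentiable ℝ (fderiv ℝ (fderiv ℝ Φ)) :=
    ((h.fderiv_right (m := 2) (by norm_num)).fderiv_right (m := 1) (by norm_num)).differentiable
      (by norm_num)
  have := (fd_zero (V := X →L[ℝ] X →L[ℝ] V) h2 ((ContinuousLinearMap.apply ℝ V c) ∘L (ContinuousLinearMap.apply ℝ _ b) -
    (ContinuousLinearMap.apply ℝ V b) ∘L (ContinuousLinearMap.apply ℝ _ c)) (x₀ := x) (c := (0 : V))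
    (Eventually.of_forall fun y => by
      simpa [sub_eq_zero] using sym2 (h.of_le (by norm_num)) y b c)).self_of_nhds a
  simpa [sub_eq_zero] using this

theorem sym3' {Φ : X → V} (h : ContDiff ℝ 3 Φ) (x a b c : X) :
    fderiv ℝ (fderiv ℝ (fderiv ℝ Φ)) x a b c = fderiv ℝ (fderiv ℝ (fderiv ℝ Φ)) x b a c := by
  rw [sym2 (h.fderiv_right (m := 2) (by norm_num)) x a b]

theorem sym4 {Φ : X → V} (h : ContDiff ℝ 4 Φ) (x a b : X) :
    fderiv ℝ (fderiv ℝ (fderiv ℝ (fderiv ℝ Φ))) x a a b b =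
      fderiv ℝ (fderiv ℝ (fderiv ℝ (fderiv ℝ Φ))) x b b a a := by
  have h1 : ContDiff ℝ 3 (fderiv ℝ Φ) := h.fderiv_right (m := 3) (by norm_num)
  have h3 : Differentiable ℝ (fderiv ℝ (fderiv ℝ (fderiv ℝ Φ))) :=
    ((h1.fderiv_right (m := 2) (by norm_num)).fderiv_right (m := 1) (by norm_num)).differentiable
      (by norm_num)
  have k : ∀ a b c d, fderiv ℝ (fderiv ℝ (fderiv ℝ (fderiv ℝ Φ))) x a b c d =
      fderiv ℝ (fderiv ℝ (fderiv ℝ (fderiv ℝ Φ))) x a b d c := by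
    intro a b c d
    have := (fd_zero (V := X →L[ℝ] X →L[ℝ] X →L[ℝ] V) h3 ((ContinuousLinearMap.apply ℝ V d) ∘L (ContinuousLinearMap.apply ℝ _ c) ∘L
      (ContinuousLinearMap.apply ℝ _ b) - (ContinuousLinearMap.apply ℝ V c) ∘L
      (ContinuousLinearMap.apply ℝ _ d) ∘L (ContinuousLinearMap.apply ℝ _ b)) (x₀ := x) (c := (0 : V))
      (Eventually.of_forall fun y => by
        simpa [sub_eq_zero] using sym3 (h.of_le (by norm_num)) y b c d)).self_of_nhds a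
    simpa [sub_eq_zero] using this
  rw [sym3 h1 x a a b, sym3' h1 x a b a, k b a a b, sym3 h1 x b a b]

theorem line_ev {p : X → Prop} (h : ∀ᶠ x in 𝓝 (0 : X), p x) (e : X) :
    ∀ᶠ s in 𝓝 (0 : ℝ), p (s • e) := by
  have : Tendsto (fun s : ℝ => s • e) (𝓝 0) (𝓝 0) :=
    (Continuous.tendsto' (by fun_prop) _ _ (zero_smul _ _))
  exact this.eventually h

end calculus

variable {P Q : Type*} [NormedAddCommGroup P] [InnerProductSpace ℝ P] [CompleteSpace P]
  [NormedAddCommGroup Q] [InnerProductSpace ℝ Q] [CompleteSpace Q]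

theorem exists_normal [FiniteDimensional ℝ P] [FiniteDimensional ℝ Q] {L : P →L[ℝ] Q}
    (hL : Function.Injective L) {f : Q} (hf : ⟪f, f⟫ = 1) (hfL : (L†) f = 0)
    (hd : finrank ℝ Q = finrank ℝ P + 2) :
    ∃ ν : Q, ⟪ν, ν⟫ = 1 ∧ ⟪ν, f⟫ = 0 ∧ ∀ w, (L†) w = 0 → w = ⟪w, ν⟫ • ν + ⟪w, f⟫ • f := by
  let φ : P × ℝ →ₗ[ℝ] Q := L.toLinearMap.coprod (LinearMap.toSpanSingleton ℝ Q f)
  have hφ : ∀ a c, φ (a, c) = L a + c • f := fun a c => rfl
  have e : ∀ a w, ⟪L a, w⟫ = ⟪a, (L†) w⟫ := fun a w => by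
    rw [ContinuousLinearMap.adjoint_inner_right]
  have hi : Function.Injective φ := by
    rw [injective_iff_map_eq_zero]
    rintro ⟨a, c⟩ h
    rw [hφ] at h
    have h1 := congrArg (fun w => ⟪w, f⟫) h
    simp only [inner_add_left, e, hfL, inner_zero_right, real_inner_smul_left, hf,
      inner_zero_left] at h1
    have hc : c = 0 := by linarith
    rw [hc, zero_smul, add_zero, ← map_zero L] at h
    rw [hL h, hc]; rfl
  have h1 : finrank ℝ (LinearMap.range φ)ᗮ = 1 := by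
    have := Submodule.finrank_add_finrank_orthogonal (LinearMap.range φ)
    rw [LinearMap.finrank_range_of_inj hi, finrank_prod, finrank_self] at this
    omega
  obtain ⟨v, hv, hv'⟩ := finrank_eq_one_iff'.1 h1
  have hv0 : (v : Q) ≠ 0 := fun h => hv (Subtype.ext h)
  have hn : ‖(v : Q)‖ ≠ 0 := norm_ne_zero_iff.2 hv0
  have hvf : ⟪(v : Q), f⟫ = 0 := by
    rw [real_inner_comm]
    exact v.2 f ⟨(0, 1), by simp [hφ]⟩
  have hvv : ⟪‖(v : Q)‖⁻¹ • (v : Q), ‖(v : Q)‖⁻¹ • (v : Q)⟫ = 1 := by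
    rw [real_inner_smul_left, real_inner_smul_right, real_inner_self_eq_norm_sq]; field_simp
  refine ⟨‖(v : Q)‖⁻¹ • (v : Q), hvv, by rw [real_inner_smul_left, hvf, mul_zero], fun w hw => ?_⟩
  obtain ⟨c, hc⟩ := hv' ⟨w - ⟪w, f⟫ • f, by
    rintro _ ⟨⟨a, c⟩, rfl⟩
    simp only [hφ, inner_add_left, inner_sub_right, e, hw, hfL, real_inner_smul_left,
      real_inner_smul_right, hf, inner_zero_right, real_inner_comm w f, map_smul, smul_zero]
    ring⟩
  have hc' : w = c • (v : Q) + ⟪w, f⟫ • f := by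
    have := congrArg Subtype.val hc
    simp only [Submodule.coe_smul] at this
    rw [this]; abel
  have : ⟪w, ‖(v : Q)‖⁻¹ • (v : Q)⟫ = c * ‖(v : Q)‖ := by
    rw [hc', inner_add_left, real_inner_smul_left, real_inner_smul_left, real_inner_smul_right,
      real_inner_smul_right, real_inner_self_eq_norm_sq, real_inner_comm (v : Q) f, hvf]
    field_simp; ring
  rw [this, smul_smul, mul_assoc, mul_inv_cancel₀ hn, mul_one]
  exact hc'

variable {X : Type*} [NormedAddCommGroup X] [NormedSpace ℝ X]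

/-- Spatial differential. -/
noncomputable def sL (ι : P →L[ℝ] X) (W : X → Q) (x : X) : P →L[ℝ] Q := fderiv ℝ W x ∘L ι

/-- Spatial Hessian. -/
noncomputable def sB (ι : P →L[ℝ] X) (W : X → Q) (x : X) (u v : P) : Q :=
  fderiv ℝ (fderiv ℝ W) x (ι u) (ι v)

/-- A moving piece of the unit sphere written as a graph over the range of `J`. -/
structure Graph (ι : P →L[ℝ] X) (pr : X →L[ℝ] P) (W : X → Q) (J : P →L[ℝ] Q) : Prop where
  sec : ∀ a, pr (ι a) = a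
  smooth : ContDiff ℝ 4 W
  base : ∀ a, fderiv ℝ W 0 (ι a) = J a
  proj : ∀ᶠ x in 𝓝 (0 : X), (J†) (W x) = pr x
  sph : ∀ᶠ x in 𝓝 (0 : X), ⟪W x, W x⟫ = 1

namespace Graph

variable {ι : P →L[ℝ] X} {pr : X →L[ℝ] P} {W : X → Q} {J : P →L[ℝ] Q} (h : Graph ι pr W J)
include h

theorem c1 : ContDiff ℝ 3 (fderiv ℝ W) := h.smooth.fderiv_right (m := 3) (by norm_num)

theorem c2 : ContDiff ℝ 2 (fderiv ℝ (fderiv ℝ W)) := h.c1.fderiv_right (m := 2) (by norm_num)

theorem v1 : ∀ᶠ x in 𝓝 (0 : X), ∀ y, (J†) (fderiv ℝ W x y) = pr y := by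
  filter_upwards [h.proj.eventually_nhds] with x hx y
  have := ((J†).hasFDerivAt.comp x (h.smooth.differentiable (by norm_num) x).hasFDerivAt).unique
    (pr.hasFDerivAt.congr_of_eventuallyEq hx)
  exact congrArg (fun T : X →L[ℝ] P => T y) this

theorem iso (a : P) : (J†) (J a) = a := by
  rw [← h.base, h.v1.self_of_nhds, h.sec]

theorem v2 (y : X) : ∀ᶠ x in 𝓝 (0 : X), ∀ y', (J†) (fderiv ℝ (fderiv ℝ W) x y' y) = 0 :=
  fd_zero (h.c1.differentiable (by norm_num)) ((J†) ∘L ContinuousLinearMap.apply ℝ Q y)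
    (h.v1.mono fun _ hx => hx y)

theorem v20 (y y' : X) : (J†) (fderiv ℝ (fderiv ℝ W) 0 y' y) = 0 :=
  (h.v2 y).self_of_nhds y'

theorem v30 (y y' y'' : X) : (J†) (fderiv ℝ (fderiv ℝ (fderiv ℝ W)) 0 y'' y' y) = 0 :=
  (fd_zero (h.c2.differentiable (by norm_num)) ((J†) ∘L ContinuousLinearMap.apply ℝ Q y ∘L
    ContinuousLinearMap.apply ℝ (X →L[ℝ] Q) y') (c := (0 : P))
    ((h.v2 y).mono fun _ hx => hx y')).self_of_nhds y''

omit h in
theorem perp (a : P) {w : Q} (hw : (J†) w = 0) : ⟪J a, w⟫ = 0 := by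
  rw [← ContinuousLinearMap.adjoint_inner_right, hw, inner_zero_right]

theorem s12 (a b : P) : ⟪sB ι W 0 a b, W 0⟫ = -⟪a, b⟫ ∧
    ⟪fderiv ℝ (fderiv ℝ (fderiv ℝ W)) 0 (ι a) (ι a) (ι b), W 0⟫ = 0 := by
  have h1 : ∀ᶠ x in 𝓝 (0 : X), ⟪fderiv ℝ W x (ι b), W x⟫ = 0 := by
    filter_upwards [h.sph.eventually_nhds] with x hx
    have hd := (h.smooth.differentiable (by norm_num) x).hasFDerivAt
    have := congrArg (fun T : X →L[ℝ] ℝ => T (ι b)) ((hd.inner ℝ hd).unique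
      ((hasFDerivAt_const (1 : ℝ) x).congr_of_eventuallyEq hx))
    simp only [ContinuousLinearMap.comp_apply, fderivInnerCLM_apply,
      ContinuousLinearMap.prod_apply, ContinuousLinearMap.zero_apply,
      real_inner_comm (fderiv ℝ W x (ι b)) (W x)] at this
    linarith
  have j := (((Jet.line (h.c1.of_le (by norm_num)) (ι a)).app (Jet.const (ι b))).inner
    (Jet.line (h.smooth.of_le (by norm_num)) (ι a))).unique
    ((Jet.const (0 : ℝ)).congr (line_ev h1 (ι a)))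
  obtain ⟨-, j1, j2⟩ := j
  simp only [map_zero, add_zero, smul_zero, h.base, perp _ (h.v20 _ _),
    real_inner_comm (J a), mul_zero] at j1 j2
  refine ⟨?_, j2⟩
  rw [← ContinuousLinearMap.adjoint_inner_right, h.iso] at j1
  unfold sB; linarith

theorem s3 (a b c : P) :
    ⟪fderiv ℝ (fderiv ℝ (fderiv ℝ W)) 0 (ι a) (ι b) (ι c), W 0⟫ = 0 := by
  have k := (h.s12 (a + b) c).2
  simp only [map_add, ContinuousLinearMap.add_apply, inner_add_left, (h.s12 a c).2,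
    (h.s12 b c).2, sym3' (h.smooth.of_le (by norm_num)) 0 (ι b) (ι a)] at k
  linarith

theorem jet_L (e : X) : Jet (fun s : ℝ => sL ι W (s • e)) J (fderiv ℝ (fderiv ℝ W) 0 e ∘L ι)
    (fderiv ℝ (fderiv ℝ (fderiv ℝ W)) 0 e e ∘L ι) :=
  ((Jet.line (h.c1.of_le (by norm_num)) e).clm
    ((ContinuousLinearMap.compL ℝ P X Q).flip ι)).of_eq (by ext a; exact h.base a) rfl rfl

theorem jet_xi (e : X) {u a : P} (hu : ⟪u, u⟫ = 1) (ha : ⟪u, a⟫ = 0) (hb : sB ι W 0 u a = 0) :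
    Jet (fun s : ℝ => nz (sL ι W (s • e)) (sB ι W (s • e) (u + s • a) (u + s • a)) (u + s • a))
      (sB ι W 0 u u) (fderiv ℝ (fderiv ℝ (fderiv ℝ W)) 0 e (ι u) (ι u))
      (fderiv ℝ (fderiv ℝ (fderiv ℝ (fderiv ℝ W))) 0 e e (ι u) (ι u)
        + (4 : ℝ) • fderiv ℝ (fderiv ℝ (fderiv ℝ W)) 0 e (ι u) (ι a) + (2 : ℝ) • sB ι W 0 a a
        - (2 * (⟪fderiv ℝ (fderiv ℝ W) 0 e (ι u), fderiv ℝ (fderiv ℝ W) 0 e (ι u)⟫ + ⟪a, a⟫)) •
          sB ι W 0 u u) := by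
  have hl := (Jet.lin u a).clm ι
  have hb' : fderiv ℝ (fderiv ℝ W) 0 (ι a) (ι u) = 0 := by
    rw [sym2 (h.smooth.of_le (by norm_num))]; exact hb
  refine (jet_nz (h.jet_L e) h.iso (fun a => h.v20 _ _) (fun a => h.v30 _ _ _)
    (((Jet.line h.c2 e).app hl).app hl) hu ha).of_eq rfl ?_ ?_
  · unfold sB at hb
    simp only [ContinuousLinearMap.add_apply, hb, hb', add_zero]
  · simp only [ContinuousLinearMap.add_apply, map_zero, add_zero,
      ContinuousLinearMap.smul_apply, ContinuousLinearMap.comp_apply, sB,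
      sym3 (h.smooth.of_le (by norm_num)) 0 e (ι a) (ι u)]
    module

end Graph

end Pool.Agent.Lib.MP_de485e_gt
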