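import Mathlib

/-! Second order jets at `0` of functions of one real variable. -/

open Filter Topology

namespace Pool.Agent.Lib.MP_de485e_gt

variable {V V₁ V₂ : Type*} [NormedAddCommGroup V] [NormedSpace ℝ V]
  [NormedAddCommGroup V₁] [NormedSpace ℝ V₁] [NormedAddCommGroup V₂] [NormedSpace ℝ V₂]

/-- `f` has value `c₀`, first derivative `c₁` and second derivative `c₂` at `0`. -/
def Jet (f : ℝ → V) (c₀ c₁ c₂ : V) : Prop :=
  f 0 = c₀ ∧ ∃ f' : ℝ → V, (∀ᶠ s in 𝓝 (0 : ℝ), HasDerivAt f (f' s) s) ∧ f' 0 = c₁ ∧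
    HasDerivAt f' c₂ 0

namespace Jet

theorem hasDerivAt {f : ℝ → V} {c₀ c₁ c₂ : V} (h : Jet f c₀ c₁ c₂) : HasDerivAt f c₁ 0 := by
  obtain ⟨-, f', h1, rfl, -⟩ := h
  exact h1.self_of_nhds

theorem const (c : V) : Jet (fun _ => c) c 0 0 :=
  ⟨rfl, fun _ => 0, Eventually.of_forall fun s => hasDerivAt_const s c, rfl, hasDerivAt_const _ _⟩

theorem lin (c a : V) : Jet (fun s => c + s • a) c a 0 :=
  ⟨by simp, fun _ => a, Eventually.of_forall fun s => by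
    simpa using ((hasDerivAt_id s).smul_const a).const_add c, rfl, hasDerivAt_const _ _⟩

theorem of_eq {f : ℝ → V} {c₀ c₁ c₂ d₀ d₁ d₂ : V} (h : Jet f c₀ c₁ c₂) (h0 : c₀ = d₀)
    (h1 : c₁ = d₁) (h2 : c₂ = d₂) : Jet f d₀ d₁ d₂ := h0 ▸ h1 ▸ h2 ▸ h

theorem congr {f g : ℝ → V} {c₀ c₁ c₂ : V} (h : Jet f c₀ c₁ c₂) (e : g =ᶠ[𝓝 0] f) :
    Jet g c₀ c₁ c₂ := by
  obtain ⟨h0, f', h1, h2, h3⟩ := h
  refine ⟨e.self_of_nhds.trans h0, f', ?_, h2, h3⟩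
  filter_upwards [h1, e.eventually_nhds] with s hs es
  exact hs.congr_of_eventuallyEq es

theorem unique {f : ℝ → V} {c₀ c₁ c₂ d₀ d₁ d₂ : V} (h : Jet f c₀ c₁ c₂) (k : Jet f d₀ d₁ d₂) :
    c₀ = d₀ ∧ c₁ = d₁ ∧ c₂ = d₂ := by
  refine ⟨h.1.symm.trans k.1, h.hasDerivAt.unique k.hasDerivAt, ?_⟩
  obtain ⟨-, f', h1, -, h3⟩ := h
  obtain ⟨-, g', k1, -, k3⟩ := k
  refine h3.unique (k3.congr_of_eventuallyEq ?_)
  filter_upwards [h1, k1] with s a b using a.unique b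

theorem add {f g : ℝ → V} {c₀ c₁ c₂ d₀ d₁ d₂ : V} (h : Jet f c₀ c₁ c₂) (k : Jet g d₀ d₁ d₂) :
    Jet (fun s => f s + g s) (c₀ + d₀) (c₁ + d₁) (c₂ + d₂) := by
  obtain ⟨rfl, f', h1, rfl, h3⟩ := h
  obtain ⟨rfl, g', k1, rfl, k3⟩ := k
  refine ⟨rfl, fun s => f' s + g' s, ?_, rfl, h3.add k3⟩
  filter_upwards [h1, k1] with s a b using a.add b

theorem sub {f g : ℝ → V} {c₀ c₁ c₂ d₀ d₁ d₂ : V} (h : Jet f c₀ c₁ c₂) (k : Jet g d₀ d₁ d₂) :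
    Jet (fun s => f s - g s) (c₀ - d₀) (c₁ - d₁) (c₂ - d₂) := by
  obtain ⟨rfl, f', h1, rfl, h3⟩ := h
  obtain ⟨rfl, g', k1, rfl, k3⟩ := k
  refine ⟨rfl, fun s => f' s - g' s, ?_, rfl, h3.sub k3⟩
  filter_upwards [h1, k1] with s a b using a.sub b

theorem sum {ι : Type*} (S : Finset ι) {f : ι → ℝ → V} {c₀ c₁ c₂ : ι → V}
    (h : ∀ i, Jet (f i) (c₀ i) (c₁ i) (c₂ i)) :
    Jet (fun s => ∑ i ∈ S, f i s) (∑ i ∈ S, c₀ i) (∑ i ∈ S, c₁ i) (∑ i ∈ S, c₂ i) := by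
  classical
  induction S using Finset.induction_on with
  | empty => simpa using const (0 : V)
  | insert a S ha ih => simpa only [Finset.sum_insert ha] using (h a).add ih

theorem clm (A : V →L[ℝ] V₁) {f : ℝ → V} {c₀ c₁ c₂ : V} (h : Jet f c₀ c₁ c₂) :
    Jet (fun s => A (f s)) (A c₀) (A c₁) (A c₂) := by
  obtain ⟨rfl, f', h1, rfl, h3⟩ := h
  refine ⟨rfl, fun s => A (f' s), ?_, rfl, A.hasFDerivAt.comp_hasDerivAt _ h3⟩
  filter_upwards [h1] with s a using A.hasFDerivAt.comp_hasDerivAt _ a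

theorem bilin (B : V →L[ℝ] V₁ →L[ℝ] V₂) {f : ℝ → V} {g : ℝ → V₁} {c₀ c₁ c₂ : V} {d₀ d₁ d₂ : V₁}
    (h : Jet f c₀ c₁ c₂) (k : Jet g d₀ d₁ d₂) :
    Jet (fun s => B (f s) (g s)) (B c₀ d₀) (B c₁ d₀ + B c₀ d₁)
      (B c₂ d₀ + (2 : ℝ) • B c₁ d₁ + B c₀ d₂) := by
  have hf := h.hasDerivAt
  have hg := k.hasDerivAt
  obtain ⟨rfl, f', h1, rfl, h3⟩ := h
  obtain ⟨rfl, g', k1, rfl, k3⟩ := k
  have key : ∀ {a a' : ℝ → V} {b b' : ℝ → V₁} {s : ℝ}, HasDerivAt a (a' s) s →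
      HasDerivAt b (b' s) s →
      HasDerivAt (fun s => B (a s) (b s)) (B (a' s) (b s) + B (a s) (b' s)) s := by
    intro a a' b b' s ha hb
    exact (B.hasFDerivAt.comp_hasDerivAt _ ha).clm_apply hb
  refine ⟨rfl, fun s => B (f' s) (g s) + B (f s) (g' s), ?_, rfl, ?_⟩
  · filter_upwards [h1, k1] with s a b using key a b
  · have := (key (a' := fun _ => c₂) (b' := g') h3 hg).add (key (a' := f') (b' := fun _ => d₂) hf k3)
    exact HasDerivAt.congr_deriv this (by rw [two_smul]; abel)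

theorem app {f : ℝ → V →L[ℝ] V₁} {g : ℝ → V} {c₀ c₁ c₂ : V →L[ℝ] V₁} {d₀ d₁ d₂ : V}
    (h : Jet f c₀ c₁ c₂) (k : Jet g d₀ d₁ d₂) :
    Jet (fun s => f s (g s)) (c₀ d₀) (c₁ d₀ + c₀ d₁) (c₂ d₀ + (2 : ℝ) • c₁ d₁ + c₀ d₂) :=
  bilin (ContinuousLinearMap.id ℝ (V →L[ℝ] V₁)) h k

theorem smul {f : ℝ → ℝ} {g : ℝ → V} {c₀ c₁ c₂ : ℝ} {d₀ d₁ d₂ : V}
    (h : Jet f c₀ c₁ c₂) (k : Jet g d₀ d₁ d₂) :
    Jet (fun s => f s • g s) (c₀ • d₀) (c₁ • d₀ + c₀ • d₁)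
      (c₂ • d₀ + (2 : ℝ) • c₁ • d₁ + c₀ • d₂) :=
  bilin (ContinuousLinearMap.lsmul ℝ ℝ) h k

theorem inner {W : Type*} [NormedAddCommGroup W] [InnerProductSpace ℝ W] {f g : ℝ → W}
    {c₀ c₁ c₂ d₀ d₁ d₂ : W} (h : Jet f c₀ c₁ c₂) (k : Jet g d₀ d₁ d₂) :
    Jet (fun s => inner ℝ (f s) (g s)) (inner ℝ c₀ d₀) (inner ℝ c₁ d₀ + inner ℝ c₀ d₁)
      (inner ℝ c₂ d₀ + 2 * inner ℝ c₁ d₁ + inner ℝ c₀ d₂) :=
  bilin (innerSL ℝ) h k

theorem line {Φ : V → V₁} (h : ContDiff ℝ 2 Φ) (e : V) :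
    Jet (fun s : ℝ => Φ (s • e)) (Φ 0) (fderiv ℝ Φ 0 e) (fderiv ℝ (fderiv ℝ Φ) 0 e e) := by
  have h1 : Differentiable ℝ Φ := h.differentiable (by norm_num)
  have h2 : Differentiable ℝ (fderiv ℝ Φ) :=
    (h.fderiv_right (m := 1) (by norm_num)).differentiable (by norm_num)
  have hl : ∀ s : ℝ, HasDerivAt (fun s : ℝ => s • e) e s := fun s => by
    simpa using (hasDerivAt_id s).smul_const e
  refine ⟨by simp, fun s => fderiv ℝ Φ (s • e) e, Eventually.of_forall fun s => ?_, by simp, ?_⟩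
  · exact (h1 _).hasFDerivAt.comp_hasDerivAt s (hl s)
  · have := ((h2 _).hasFDerivAt.comp_hasDerivAt 0 (hl 0)).clm_apply (hasDerivAt_const 0 e)
    simpa using this

theorem ringInverse {R : Type*} [NormedRing R] [NormedAlgebra ℝ R] [CompleteSpace R]
    {G : ℝ → R} {c : R} (h : Jet G 1 0 c) : Jet (fun s => Ring.inverse (G s)) 1 0 (-c) := by
  have hG := h.hasDerivAt
  obtain ⟨h0, G', h1, h2, h3⟩ := h
  have hu : ∀ᶠ s in 𝓝 (0 : ℝ), IsUnit (G s) :=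
    hG.continuousAt.eventually (Units.isOpen.mem_nhds (by rw [h0]; exact isUnit_one))
  have key : ∀ s, HasDerivAt G (G' s) s → IsUnit (G s) →
      HasDerivAt (fun s => Ring.inverse (G s))
        (-(Ring.inverse (G s) * G' s * Ring.inverse (G s))) s := by
    intro s hs ⟨u, hu⟩
    have := (hu ▸ hasFDerivAt_ringInverse (𝕜 := ℝ) u).comp_hasDerivAt s hs
    exact HasDerivAt.congr_deriv this (by simp [← hu])
  have k0 : HasDerivAt (fun s => Ring.inverse (G s)) 0 0 := by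
    simpa [h2] using key 0 h1.self_of_nhds hu.self_of_nhds
  refine ⟨by simp [h0], fun s => -(Ring.inverse (G s) * G' s * Ring.inverse (G s)), ?_,
    by simp [h2], ?_⟩
  · filter_upwards [h1, hu] with s a b using key s a b
  · exact HasDerivAt.congr_deriv ((k0.mul h3).mul k0).neg (by simp [h0, h2])

theorem inv {g : ℝ → ℝ} {c : ℝ} (h : Jet g 1 0 c) : Jet (fun s => (g s)⁻¹) 1 0 (-c) := by
  simpa only [Ring.inverse_eq_inv'] using h.ringInverse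

theorem left {f : ℝ → ℝ} {c₁ c₂ : ℝ} (h : Jet f 0 c₁ c₂) (hf : ∀ᶠ s in 𝓝[<] (0 : ℝ), f s ≤ 0) :
    0 ≤ c₁ := by
  have h1 := (hasDerivAt_iff_tendsto_slope_left_right.1 h.hasDerivAt).1
  refine ge_of_tendsto h1 ?_
  filter_upwards [hf, self_mem_nhdsWithin] with s hs hs'
  rw [slope_def_field, h.1]
  exact div_nonneg_of_nonpos (by linarith) (by simpa using le_of_lt hs')

theorem max {f : ℝ → ℝ} {c₁ c₂ : ℝ} (h : Jet f 0 c₁ c₂) (hf : ∀ᶠ s in 𝓝 (0 : ℝ), f s ≤ 0) :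
    c₁ = 0 ∧ c₂ ≤ 0 := by
  have hm : IsLocalMax f 0 := by
    filter_upwards [hf] with s hs using hs.trans_eq h.1.symm
  have e1 : c₁ = 0 := hm.hasDerivAt_eq_zero h.hasDerivAt
  refine ⟨e1, le_of_not_gt fun hc => ?_⟩
  obtain ⟨h0, f', h1, h2, h3⟩ := h
  have hd : deriv f =ᶠ[𝓝 0] f' := h1.mono fun s hs => hs.deriv
  have hmin : IsLocalMin f 0 := isLocalMin_of_deriv_deriv_pos
    (by rw [hd.deriv_eq, h3.deriv]; exact hc) (by rw [hd.self_of_nhds, h2, e1])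
    h1.self_of_nhds.continuousAt
  have hz : f =ᶠ[𝓝 0] fun _ => 0 := by
    filter_upwards [hf, hmin] with s a b using le_antisymm a (h0 ▸ b)
  have := (unique ⟨h0, f', h1, h2, h3⟩ ((const (0 : ℝ)).congr hz)).2.2
  exact hc.ne' this

end Jet

end Pool.Agent.Lib.MP_de485e_gt
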