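import Mathlib

/-! Lifting lemma: a map from a compact connected space to a round sphere of dimension at least
two, which is a local homeomorphism where a defect function is small and along which the defect
is locally Lipschitz with a small constant, is a bijection, and the defect is small everywhere. -/

set_option autoImplicit false

open Set Filter Topology Metric
open scoped RealInnerProductSpace unitInterval

namespace Pool.Agent.Lib.MP_de485e_gt

theorem lift_path {M X : Type*} [TopologicalSpace M] [CompactSpace M] [MetricSpace X]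
    (p : M → X) (phi : M → ℝ) (hphi : Continuous phi) (eps kappa L : ℝ) (hk : 0 ≤ kappa)
    (hL : 0 ≤ L) (hsmall : kappa * L < eps)
    (hU : ∀ x, phi x < eps → ∃ e : OpenPartialHomeomorph M X, x ∈ e.source ∧
      (∀ y ∈ e.source, e y = p y) ∧
      ∀ y ∈ e.source, ∀ z ∈ e.source, |phi y - phi z| ≤ kappa * dist (p y) (p z))
    (g : ℝ → X) (hg : ∀ s t, dist (g s) (g t) ≤ L * |s - t|)
    (x0 : M) (h0 : phi x0 ≤ 0) (hp0 : p x0 = g 0) :
    ∃ G : ℝ → M, ContinuousOn G (Icc 0 1) ∧ G 0 = x0 ∧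
      ∀ t ∈ Icc (0 : ℝ) 1, p (G t) = g t ∧ phi (G t) ≤ kappa * L * t := by
  classical
  have hgc : Continuous g := by
    have : LipschitzWith (Real.toNNReal L) g := by
      refine LipschitzWith.of_dist_le_mul fun s t => ?_
      rw [Real.coe_toNNReal _ hL, Real.dist_eq]
      exact hg s t
    exact this.continuous
  let Gd : ℝ → (ℝ → M) → Prop := fun τ G => ContinuousOn G (Icc 0 τ) ∧ G 0 = x0 ∧
      ∀ t ∈ Icc (0 : ℝ) τ, p (G t) = g t ∧ phi (G t) ≤ kappa * L * t
  let S : Set ℝ := {τ | τ ∈ Icc (0 : ℝ) 1 ∧ ∃ G, Gd τ G}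
  let R : Set (ℝ × M) := {z | z.1 ∈ Icc (0 : ℝ) 1 ∧ ∃ G, Gd z.1 G ∧ G z.1 = z.2}
  have hext : ∀ τ ∈ closure S, ∃ δ > 0, ∀ τ' ∈ Icc (0 : ℝ) 1, |τ' - τ| < δ → τ' ∈ S := by
    intro τ hτ
    have hcl : IsClosed (Prod.fst '' closure R) :=
      isClosedMap_fst_of_compactSpace _ isClosed_closure
    have hsub : S ⊆ Prod.fst '' closure R := by
      rintro s ⟨hs, G, hG⟩
      exact ⟨(s, G s), subset_closure ⟨hs, G, hG, rfl⟩, rfl⟩
    obtain ⟨⟨τ0, x⟩, hx, hτ0⟩ := closure_minimal hsub hcl hτ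
    have hτ0' : τ0 = τ := hτ0
    subst hτ0'
    have hle : phi x ≤ kappa * L := by
      have hc : IsClosed {z : ℝ × M | phi z.2 ≤ kappa * L} :=
        isClosed_le (hphi.comp continuous_snd) continuous_const
      have hs : R ⊆ {z : ℝ × M | phi z.2 ≤ kappa * L} := by
        rintro ⟨s, y⟩ ⟨hs, G, hG, hGy⟩
        have h1 := (hG.2.2 s ⟨hs.1, le_rfl⟩).2
        have h2 : kappa * L * s ≤ kappa * L :=
          mul_le_of_le_one_right (mul_nonneg hk hL) hs.2
        have hGy' : G s = y := hGy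
        rw [hGy'] at h1
        exact h1.trans h2
      exact closure_minimal hs hc hx
    obtain ⟨e, hxe, hep, hlip⟩ := hU x (hle.trans_lt hsmall)
    have hfr : ∃ᶠ z in 𝓝 (τ0, x), z ∈ R := mem_closure_iff_frequently.1 hx
    have hev : ∀ᶠ z in 𝓝 (τ0, x), z.2 ∈ e.source :=
      continuousAt_snd.preimage_mem_nhds (e.open_source.mem_nhds hxe)
    have hex : e x = g τ0 := by
      have h1 : Tendsto (fun z : ℝ × M => e z.2) (𝓝 (τ0, x)) (𝓝 (e x)) :=
        (e.continuousAt hxe).tendsto.comp continuousAt_snd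
      have h2 : Tendsto (fun z : ℝ × M => g z.1) (𝓝 (τ0, x)) (𝓝 (g τ0)) :=
        hgc.continuousAt.tendsto.comp continuousAt_fst
      refine tendsto_nhds_unique_of_frequently_eq h1 h2 ((hfr.and_eventually hev).mono ?_)
      rintro ⟨s, y⟩ ⟨⟨hs, G, hG, hGy⟩, hy⟩
      have hGy' : G s = y := hGy
      have h3 := (hG.2.2 s ⟨hs.1, le_rfl⟩).1
      rw [hGy'] at h3
      exact (hep y hy).trans h3
    have htar : g ⁻¹' e.target ∈ 𝓝 τ0 :=
      hgc.continuousAt.preimage_mem_nhds (e.open_target.mem_nhds (hex ▸ e.map_source hxe))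
    obtain ⟨δ, hδ, hball⟩ := Metric.mem_nhds_iff.1 htar
    refine ⟨δ, hδ, fun τ' hτ' hlt => ⟨hτ', ?_⟩⟩
    have hev2 : ∀ᶠ z : ℝ × M in 𝓝 (τ0, x), z.1 ∈ ball τ0 δ :=
      continuousAt_fst.preimage_mem_nhds (ball_mem_nhds _ hδ)
    obtain ⟨⟨s, y⟩, ⟨hs, G, hG, hGy⟩, hy, hsb⟩ := (hfr.and_eventually (hev.and hev2)).exists
    have hGy' : G s = y := hGy
    have hs' : s ∈ Icc (0 : ℝ) 1 := hs
    have hy' : y ∈ e.source := hy
    have hsb' : |s - τ0| < δ := by simpa [Real.dist_eq] using hsb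
    have hGs := hG.2.2 s ⟨hs'.1, le_rfl⟩
    rw [hGy'] at hGs
    have hys : e.symm (g s) = y := by
      rw [← hGs.1, ← hep y hy', e.left_inv hy']
    rcases le_total τ' s with hle' | hle'
    · exact ⟨G, hG.1.mono (Icc_subset_Icc_right hle'), hG.2.1,
        fun t ht => hG.2.2 t ⟨ht.1, ht.2.trans hle'⟩⟩
    · have hin : ∀ t ∈ Icc s τ', g t ∈ e.target := by
        intro t ht
        apply hball
        rw [mem_ball, Real.dist_eq, abs_lt]
        rw [abs_lt] at hlt hsb'
        constructor <;> linarith [ht.1, ht.2]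
      refine ⟨fun t => if t ≤ s then G t else e.symm (g t), ?_, ?_, ?_⟩
      · have hA : ContinuousOn (fun t => if t ≤ s then G t else e.symm (g t)) (Icc 0 s) :=
          hG.1.congr fun t ht => if_pos ht.2
        have hB : ContinuousOn (fun t => if t ≤ s then G t else e.symm (g t)) (Icc s τ') := by
          have : ContinuousOn (fun t => e.symm (g t)) (Icc s τ') :=
            e.continuousOn_symm.comp hgc.continuousOn hin
          refine this.congr fun t ht => ?_
          by_cases h : t ≤ s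
          · have hts : t = s := le_antisymm h ht.1
            simp only [if_pos h]
            rw [hts, hGy', hys]
          · simp only [if_neg h]
        have := hA.union_of_isClosed hB isClosed_Icc isClosed_Icc
        rwa [Icc_union_Icc_eq_Icc hs'.1 hle'] at this
      · simp only [if_pos hs'.1]
        exact hG.2.1
      · intro t ht
        by_cases h : t ≤ s
        · simp only [if_pos h]
          exact hG.2.2 t ⟨ht.1, h⟩
        · simp only [if_neg h]
          have hst : s ≤ t := (not_le.1 h).le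
          have hta := hin t ⟨hst, ht.2⟩
          have hsrc := e.map_target hta
          have hpt : p (e.symm (g t)) = g t := by
            rw [← hep _ hsrc, e.right_inv hta]
          refine ⟨hpt, ?_⟩
          have h1 := hlip _ hsrc y hy'
          rw [hpt, hGs.1] at h1
          have h2 := hg t s
          rw [abs_of_nonneg (sub_nonneg.2 hst)] at h2
          have h3 := mul_le_mul_of_nonneg_left h2 hk
          have h4 := (le_abs_self _).trans h1
          have h5 := hGs.2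
          nlinarith
  have hSI : S ⊆ Icc 0 1 := fun s hs => hs.1
  have hclosed : IsClosed (S ∩ Icc 0 1) := by
    rw [inter_eq_left.2 hSI]
    refine isClosed_of_closure_subset fun τ hτ => ?_
    obtain ⟨δ, hδ, h⟩ := hext τ hτ
    exact h τ (closure_minimal hSI isClosed_Icc hτ) (by simpa using hδ)
  have hzero : (0 : ℝ) ∈ S := by
    refine ⟨⟨le_rfl, zero_le_one⟩, fun _ => x0, continuousOn_const, rfl, fun t ht => ?_⟩
    have : t = 0 := le_antisymm ht.2 ht.1
    subst this
    exact ⟨hp0, by simpa using h0⟩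
  have hone : (1 : ℝ) ∈ S := by
    refine hclosed.mem_of_ge_of_forall_exists_gt hzero zero_le_one ?_
    rintro x ⟨hxS, hx0, hx1⟩
    obtain ⟨δ, hδ, h⟩ := hext x (subset_closure hxS)
    have hlt : x < min 1 (x + δ / 2) := lt_min hx1 (by linarith)
    refine ⟨min 1 (x + δ / 2), h _ ⟨hx0.trans hlt.le, min_le_left _ _⟩ ?_, hlt, min_le_left _ _⟩
    rw [abs_of_nonneg (by linarith)]
    have := min_le_right 1 (x + δ / 2)
    linarith
  exact hone.2

section Sphere

variable {E : Type*} [NormedAddCommGroup E] [InnerProductSpace ℝ E]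

theorem arc_norm_sq (y a : E) (hy : ‖y‖ = 1) (ha : ‖a‖ = 1) (hya : ⟪y, a⟫ = 0) (c s : ℝ) :
    ‖c • y + s • a‖ ^ 2 = c ^ 2 + s ^ 2 := by
  rw [norm_add_sq_real, norm_smul, norm_smul, hy, ha, real_inner_smul_left,
    real_inner_smul_right, hya]
  simp

/-- The point at time `t` of the great circle from `y` in the direction `a`. -/
noncomputable def arc (y : sphere (0 : E) 1) (a : sphere (0 : (ℝ ∙ (y : E))ᗮ) 1) (t : ℝ) :
    sphere (0 : E) 1 :=
  ⟨Real.cos (Real.pi * t) • (y : E) + Real.sin (Real.pi * t) • ((a : (ℝ ∙ (y : E))ᗮ) : E), by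
    have h := arc_norm_sq (y : E) ((a : (ℝ ∙ (y : E))ᗮ) : E) (norm_eq_of_mem_sphere y)
      (norm_eq_of_mem_sphere a)
      (Submodule.mem_orthogonal_singleton_iff_inner_right.1 (a : (ℝ ∙ (y : E))ᗮ).2)
      (Real.cos (Real.pi * t)) (Real.sin (Real.pi * t))
    rw [Real.cos_sq_add_sin_sq] at h
    rw [mem_sphere_zero_iff_norm]
    exact (pow_eq_one_iff_of_nonneg (norm_nonneg _) two_ne_zero).1 h⟩

theorem arc_val (y : sphere (0 : E) 1) (a : sphere (0 : (ℝ ∙ (y : E))ᗮ) 1) (t : ℝ) :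
    (arc y a t : E) =
      Real.cos (Real.pi * t) • (y : E) + Real.sin (Real.pi * t) • ((a : (ℝ ∙ (y : E))ᗮ) : E) :=
  rfl

theorem arc_inner_dir (y : sphere (0 : E) 1) (a : sphere (0 : (ℝ ∙ (y : E))ᗮ) 1) :
    ⟪(y : E), ((a : (ℝ ∙ (y : E))ᗮ) : E)⟫ = 0 :=
  Submodule.mem_orthogonal_singleton_iff_inner_right.1 (a : (ℝ ∙ (y : E))ᗮ).2

theorem arc_dist (y : sphere (0 : E) 1) (a : sphere (0 : (ℝ ∙ (y : E))ᗮ) 1) (s t : ℝ) :
    dist (arc y a s) (arc y a t) ≤ 4 * |s - t| := by
  have h := arc_norm_sq (y : E) ((a : (ℝ ∙ (y : E))ᗮ) : E) (norm_eq_of_mem_sphere y)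
    (norm_eq_of_mem_sphere a) (arc_inner_dir y a)
    (Real.cos (Real.pi * s) - Real.cos (Real.pi * t))
    (Real.sin (Real.pi * s) - Real.sin (Real.pi * t))
  have he : (arc y a s : E) - arc y a t =
      (Real.cos (Real.pi * s) - Real.cos (Real.pi * t)) • (y : E) +
        (Real.sin (Real.pi * s) - Real.sin (Real.pi * t)) • ((a : (ℝ ∙ (y : E))ᗮ) : E) := by
    rw [arc_val, arc_val, sub_smul, sub_smul]
    abel
  rw [Subtype.dist_eq, dist_eq_norm, he]
  refine (pow_le_pow_iff_left₀ (norm_nonneg _) (by positivity) two_ne_zero).1 ?_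
  rw [h, mul_pow, sq_abs]
  have h1 := Real.cos_sub (Real.pi * s) (Real.pi * t)
  have h2 := Real.one_sub_sq_div_two_le_cos (x := Real.pi * s - Real.pi * t)
  have h3 := Real.cos_sq_add_sin_sq (Real.pi * s)
  have h4 := Real.cos_sq_add_sin_sq (Real.pi * t)
  have h5 : Real.pi ^ 2 ≤ 4 ^ 2 :=
    pow_le_pow_left₀ Real.pi_pos.le Real.pi_le_four 2
  have h6 : (Real.pi * s - Real.pi * t) ^ 2 ≤ 4 ^ 2 * (s - t) ^ 2 := by
    rw [← mul_sub, mul_pow]
    exact mul_le_mul_of_nonneg_right h5 (sq_nonneg _)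
  nlinarith

theorem arc_inner (y : sphere (0 : E) 1) (a : sphere (0 : (ℝ ∙ (y : E))ᗮ) 1) (t : ℝ) :
    ⟪(y : E), (arc y a t : E)⟫ = Real.cos (Real.pi * t) := by
  rw [arc_val, inner_add_right, real_inner_smul_right, real_inner_smul_right, arc_inner_dir,
    real_inner_self_eq_norm_sq, norm_eq_of_mem_sphere y]
  ring

theorem arc_zero (y : sphere (0 : E) 1) (a : sphere (0 : (ℝ ∙ (y : E))ᗮ) 1) : arc y a 0 = y := by
  apply Subtype.ext
  rw [arc_val]
  simp

theorem arc_one (y : sphere (0 : E) 1) (a b : sphere (0 : (ℝ ∙ (y : E))ᗮ) 1) :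
    arc y a 1 = arc y b 1 := by
  apply Subtype.ext
  rw [arc_val, arc_val]
  simp

theorem arc_fiber (y : sphere (0 : E) 1) (a b : sphere (0 : (ℝ ∙ (y : E))ᗮ) 1) (s t : ℝ)
    (hs : s ∈ Icc (0 : ℝ) 1) (ht : t ∈ Icc (0 : ℝ) 1) (h : arc y a s = arc y b t) :
    s = t ∧ (a = b ∨ s = 0 ∨ s = 1) := by
  have hm : ∀ r ∈ Icc (0 : ℝ) 1, Real.pi * r ∈ Icc 0 Real.pi := fun r hr =>
    ⟨mul_nonneg Real.pi_pos.le hr.1, mul_le_of_le_one_right Real.pi_pos.le hr.2⟩
  have h1 : Real.cos (Real.pi * s) = Real.cos (Real.pi * t) := by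
    rw [← arc_inner y a s, ← arc_inner y b t, h]
  have h2 : s = t := mul_left_cancel₀ Real.pi_ne_zero (Real.injOn_cos (hm s hs) (hm t ht) h1)
  subst h2
  refine ⟨rfl, ?_⟩
  by_cases h0 : s = 0
  · exact Or.inr (Or.inl h0)
  by_cases h1' : s = 1
  · exact Or.inr (Or.inr h1')
  left
  have hpos : 0 < Real.sin (Real.pi * s) := by
    refine Real.sin_pos_of_pos_of_lt_pi (mul_pos Real.pi_pos (lt_of_le_of_ne hs.1 (Ne.symm h0))) ?_
    exact mul_lt_of_lt_one_right Real.pi_pos (lt_of_le_of_ne hs.2 h1')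
  have h3 := congrArg Subtype.val h
  rw [arc_val, arc_val, add_right_inj] at h3
  exact Subtype.ext (Subtype.ext (smul_right_injective E hpos.ne' h3))

theorem arc_surj (y : sphere (0 : E) 1) (a0 : sphere (0 : (ℝ ∙ (y : E))ᗮ) 1)
    (z : sphere (0 : E) 1) : ∃ a, ∃ t ∈ Icc (0 : ℝ) 1, arc y a t = z := by
  have hy := norm_eq_of_mem_sphere y
  have hz := norm_eq_of_mem_sphere z
  set c : ℝ := ⟪(y : E), (z : E)⟫ with hc
  have hc1 : |c| ≤ 1 := by
    have := abs_real_inner_le_norm (y : E) (z : E)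
    rwa [hy, hz, mul_one] at this
  rw [abs_le] at hc1
  have hw : (z : E) - c • (y : E) ∈ (ℝ ∙ (y : E))ᗮ := by
    rw [Submodule.mem_orthogonal_singleton_iff_inner_right, inner_sub_right,
      real_inner_smul_right, real_inner_self_eq_norm_sq, hy, ← hc]
    ring
  have hn : ‖(z : E) - c • (y : E)‖ = Real.sin (Real.arccos c) := by
    rw [Real.sin_arccos]
    symm
    rw [Real.sqrt_eq_iff_mul_self_eq (by nlinarith) (norm_nonneg _), ← sq, norm_sub_sq_real,
      real_inner_smul_right, real_inner_comm, ← hc, norm_smul, hy, hz, Real.norm_eq_abs]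
    simp only [mul_one, sq_abs]
    ring
  have ht : Real.arccos c / Real.pi ∈ Icc (0 : ℝ) 1 :=
    ⟨div_nonneg (Real.arccos_nonneg c) Real.pi_pos.le,
      (div_le_one Real.pi_pos).2 (Real.arccos_le_pi c)⟩
  have hmul : Real.pi * (Real.arccos c / Real.pi) = Real.arccos c := by
    field_simp
  by_cases h0 : (z : E) - c • (y : E) = 0
  · refine ⟨a0, _, ht, Subtype.ext ?_⟩
    rw [arc_val, hmul, Real.cos_arccos hc1.1 hc1.2, ← hn, h0, norm_zero, zero_smul, add_zero]
    exact (sub_eq_zero.1 h0).symm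
  · have hpos : ‖(z : E) - c • (y : E)‖ ≠ 0 := norm_ne_zero_iff.2 h0
    refine ⟨⟨‖(z : E) - c • (y : E)‖⁻¹ • ⟨_, hw⟩, ?_⟩, _, ht, Subtype.ext ?_⟩
    · rw [mem_sphere_zero_iff_norm, norm_smul, norm_inv, norm_norm]
      exact inv_mul_cancel₀ hpos
    · rw [arc_val, hmul, Real.cos_arccos hc1.1 hc1.2, ← hn]
      change c • (y : E) + ‖(z : E) - c • (y : E)‖ • ‖(z : E) - c • (y : E)‖⁻¹ •
        ((z : E) - c • (y : E)) = z
      rw [smul_smul, mul_inv_cancel₀ hpos, one_smul]
      abel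

theorem lift_sphere {M : Type*} [TopologicalSpace M] [T2Space M] [CompactSpace M]
    [ConnectedSpace M] [FiniteDimensional ℝ E] (hE : 3 ≤ Module.finrank ℝ E)
    (p : M → sphere (0 : E) 1) (phi : M → ℝ) (hphi : Continuous phi) (eps kappa : ℝ)
    (hk : 0 ≤ kappa) (hsmall : 4 * kappa < eps)
    (hU : ∀ x, phi x < eps → ∃ e : OpenPartialHomeomorph M (sphere (0 : E) 1), x ∈ e.source ∧
      (∀ y ∈ e.source, e y = p y) ∧
      ∀ y ∈ e.source, ∀ z ∈ e.source, |phi y - phi z| ≤ kappa * dist (p y) (p z))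
    (x0 : M) (h0 : phi x0 ≤ 0) :
    Function.Bijective p ∧ ∀ x, phi x ≤ 4 * kappa := by
  classical
  set y0 := p x0 with hy0
  have hy0ne : (y0 : E) ≠ 0 := ne_zero_of_mem_unit_sphere y0
  have hrank : 1 < Module.rank ℝ (ℝ ∙ (y0 : E))ᗮ := by
    have h1 := Submodule.finrank_add_finrank_orthogonal (ℝ ∙ (y0 : E))
    rw [finrank_span_singleton hy0ne] at h1
    rw [← Module.finrank_eq_rank]
    exact_mod_cast (by omega : 1 < Module.finrank ℝ (ℝ ∙ (y0 : E))ᗮ)
  have hconn := isConnected_sphere hrank (0 : (ℝ ∙ (y0 : E))ᗮ) zero_le_one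
  have : ConnectedSpace (sphere (0 : (ℝ ∙ (y0 : E))ᗮ) 1) := Subtype.connectedSpace hconn
  obtain ⟨a0⟩ : Nonempty (sphere (0 : (ℝ ∙ (y0 : E))ᗮ) 1) := inferInstance
  have hpath := fun a : sphere (0 : (ℝ ∙ (y0 : E))ᗮ) 1 =>
    lift_path p phi hphi eps kappa 4 hk (by norm_num) (by linarith) hU (arc y0 a)
      (arc_dist y0 a) x0 h0 (by rw [arc_zero])
  choose G hGc hG0 hG using hpath
  have hbound : ∀ a, ∀ t ∈ Icc (0 : ℝ) 1, phi (G a t) ≤ 4 * kappa := by
    intro a t ht
    have h1 := (hG a t ht).2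
    have h2 := ht.2
    nlinarith
  let U : Set M := {x | phi x < eps}
  have hUo : IsOpen U := isOpen_lt hphi continuous_const
  have hloc : IsLocalHomeomorph (p ∘ (Subtype.val : U → M)) := by
    rw [isLocalHomeomorph_iff_isLocalHomeomorphOn_univ]
    refine IsLocalHomeomorphOn.comp (t := U) (IsLocalHomeomorphOn.mk _ _ fun x hx => ?_)
      hUo.isOpenEmbedding_subtypeVal.isLocalHomeomorph.isLocalHomeomorphOn fun x _ => x.2
    obtain ⟨e, hx, he, -⟩ := hU x hx
    exact ⟨e, hx, fun y hy => (he y hy).symm⟩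
  have hsep : IsSeparatedMap (p ∘ (Subtype.val : U → M)) := T2Space.isSeparatedMap _
  let f : C(I × sphere (0 : (ℝ ∙ (y0 : E))ᗮ) 1, sphere (0 : E) 1) :=
    ⟨fun z => arc y0 z.2 z.1, by
      refine Continuous.subtype_mk ?_ _
      fun_prop⟩
  let g : I × sphere (0 : (ℝ ∙ (y0 : E))ᗮ) 1 → U := fun z =>
    ⟨G z.2 z.1, (hbound z.2 z.1 z.1.2).trans_lt hsmall⟩
  have hgl : (p ∘ (Subtype.val : U → M)) ∘ g = f := funext fun z => (hG z.2 z.1 z.1.2).1
  have hg0 : ∀ a b, g (0, a) = g (0, b) := fun a b =>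
    Subtype.ext ((hG0 a).trans (hG0 b).symm)
  have hgc : Continuous g := by
    refine hloc.continuous_lift hsep f hgl ?_ fun a => ?_
    · exact continuous_const.congr fun a => hg0 a0 a
    · exact Continuous.subtype_mk (continuousOn_iff_continuous_domRestrict.1 (hGc a)) _
  have hg1 : ∀ a b, g (1, a) = g (1, b) := by
    refine hsep.const_of_comp hloc.isLocallyInjective (g := fun a => g (1, a))
      (hgc.comp (Continuous.prodMk_right _)) fun a b => ?_
    exact (congrFun hgl (1, a)).trans ((arc_one y0 a b).trans (congrFun hgl (1, b)).symm)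
  have hfib : ∀ z w, f z = f w → g z = g w := by
    rintro ⟨s, a⟩ ⟨t, b⟩ h
    obtain ⟨h1, h2⟩ := arc_fiber y0 a b s t s.2 t.2 h
    have h1' : s = t := Subtype.ext h1
    subst h1'
    rcases h2 with h2 | h2 | h2
    · rw [h2]
    · have : s = 0 := Subtype.ext h2
      rw [this]
      exact hg0 a b
    · have : s = 1 := Subtype.ext h2
      rw [this]
      exact hg1 a b
  have hsurj : Function.Surjective f := by
    intro z
    obtain ⟨a, t, ht, h⟩ := arc_surj y0 a0 z
    exact ⟨(⟨t, ht⟩, a), h⟩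
  have hq := IsQuotientMap.of_surjective_continuous hsurj f.continuous
  let sc : sphere (0 : E) 1 → U := g ∘ Function.surjInv hsurj
  have hscf : sc ∘ f = g := funext fun z => hfib _ _ (Function.surjInv_eq hsurj (f z))
  have hscc : Continuous sc := hq.continuous_iff.2 (hscf ▸ hgc)
  have hscp : (p ∘ (Subtype.val : U → M)) ∘ sc = id := funext fun z =>
    (congrFun hgl _).trans (Function.surjInv_eq hsurj z)
  have hsco : IsOpenEmbedding sc :=
    hloc.isOpenEmbedding_of_comp (hscp ▸ IsOpenEmbedding.id) hscc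
  have hopen : IsOpenEmbedding ((Subtype.val : U → M) ∘ sc) :=
    hUo.isOpenEmbedding_subtypeVal.comp hsco
  have hclopen : IsClopen (range ((Subtype.val : U → M) ∘ sc)) :=
    ⟨(isCompact_range hopen.continuous).isClosed, hopen.isOpen_range⟩
  have huniv := hclopen.eq_univ (range_nonempty_iff_nonempty.2 ⟨y0⟩)
  have hall : ∀ x : M, ∃ z, (sc z : M) = x := fun x => (eq_univ_iff_forall.1 huniv x)
  refine ⟨⟨fun x x' h => ?_, fun z => ⟨sc z, congrFun hscp z⟩⟩, fun x => ?_⟩
  · obtain ⟨z, rfl⟩ := hall x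
    obtain ⟨z', rfl⟩ := hall x'
    have h1 : p (sc z) = z := congrFun hscp z
    have h2 : p (sc z') = z' := congrFun hscp z'
    rw [show z = z' from h1.symm.trans (h.trans h2)]
  · obtain ⟨z, rfl⟩ := hall x
    exact hbound _ _ (Function.surjInv hsurj z).1.2

end Sphere

end Pool.Agent.Lib.MP_de485e_gt
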