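import Pool.Agent.Lib.MP_de485e_gt.Graph
import Pool.Agent.Lib.MP_de485e_gt.Good

/-! The maximum principle computation at a first touching point. -/

set_option maxSynthPendingDepth 3

open Filter Topology Module
open scoped RealInnerProductSpace InnerProduct

namespace Pool.Agent.Lib.MP_de485e_gt

variable {P Q : Type*} [NormedAddCommGroup P] [InnerProductSpace ℝ P] [CompleteSpace P]
  [NormedAddCommGroup Q] [InnerProductSpace ℝ Q] [CompleteSpace Q]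
  {X : Type*} [NormedAddCommGroup X] [NormedSpace ℝ X]

omit [CompleteSpace Q] in
theorem psi_scalar {ν f : Q} (hν : ⟪ν, ν⟫ = 1) (hf : ⟪f, f⟫ = 1) (hνf : ⟪ν, f⟫ = 0) (z p q : ℝ) :
    ⟪(p • ν - f) - (q • ν - f), (p • ν - f) - (q • ν - f)⟫ - 4 * (z * ⟪p • ν - f, q • ν - f⟫)
      = Gq z p q := by
  simp only [inner_sub_left, inner_sub_right, real_inner_smul_left, real_inner_smul_right, hν, hf,
    hνf, real_inner_comm ν f, Gq]
  ring

namespace Graph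

variable {ι : P →L[ℝ] X} {pr : X →L[ℝ] P} {W : X → Q} {J : P →L[ℝ] Q} (h : Graph ι pr W J)
include h

theorem pde_jet {n : ℕ} (e : OrthonormalBasis (Fin n) ℝ P) (τ : X)
    (hpde : ∀ᶠ x in 𝓝 (0 : X), fderiv ℝ W x τ = ∑ j, sB ι W x (e j) (gi (sL ι W x) (e j))
      + (n : ℝ) • (W x - sL ι W x (pr x))) {u : P} (hu : ⟪u, u⟫ = 1)
    (heig : ∀ w, sB ι W 0 u w = ⟪u, w⟫ • sB ι W 0 u u) :
    fderiv ℝ (fderiv ℝ (fderiv ℝ W)) 0 τ (ι u) (ι u) =
      ∑ j, fderiv ℝ (fderiv ℝ (fderiv ℝ (fderiv ℝ W))) 0 (ι (e j)) (ι (e j)) (ι u) (ι u)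
        - (2 * ⟪sB ι W 0 u u, sB ι W 0 u u⟫ + n) • sB ι W 0 u u := by
  have hj : Jet (fun s : ℝ => pr (s • ι u)) 0 u 0 :=
    (Jet.lin 0 u).congr (Eventually.of_forall fun s => by simp [h.sec])
  have hg := jet_gi (h.jet_L (ι u)) h.iso (fun a => h.v20 _ _) (fun a => h.v30 _ _ _)
  have hR := (Jet.sum Finset.univ fun j => ((Jet.line h.c2 (ι u)).app (Jet.const (ι (e j)))).app
    ((hg.app (Jet.const (e j))).clm ι)).add ((Jet.const (n : ℝ)).smul
    ((Jet.line (h.smooth.of_le (by norm_num)) (ι u)).sub ((h.jet_L (ι u)).app hj)))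
  have key := ((((Jet.line (h.c1.of_le (by norm_num)) (ι u)).app (Jet.const τ))).unique
    (hR.congr (line_ev hpde (ι u)))).2.2
  have h3 : ContDiff ℝ 3 W := h.smooth.of_le (by norm_num)
  have ad : ((fderiv ℝ (fderiv ℝ W) 0 (ι u) ∘L ι)†) (sB ι W 0 u u) =
      ⟪sB ι W 0 u u, sB ι W 0 u u⟫ • u := by
    refine ext_inner_left ℝ fun w => ?_
    rw [ContinuousLinearMap.adjoint_inner_right, real_inner_smul_right]
    change ⟪sB ι W 0 u w, _⟫ = _
    rw [heig w, real_inner_smul_left, real_inner_comm u w, mul_comm]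
  have t : ∀ j, fderiv ℝ (fderiv ℝ W) 0 (ι (e j)) (ι (((fderiv ℝ (fderiv ℝ W) 0 (ι u) ∘L ι)†)
      (fderiv ℝ (fderiv ℝ W) 0 (ι u) (ι (e j))))) =
      (⟪u, e j⟫ * ⟪e j, u⟫) • ⟪sB ι W 0 u u, sB ι W 0 u u⟫ • sB ι W 0 u u := by
    intro j
    have := heig (e j)
    unfold sB at this
    rw [this, map_smul]
    erw [ad]
    rw [map_smul, map_smul, map_smul, map_smul, sym2 (h.smooth.of_le (by norm_num)), this,
      real_inner_comm u (e j), mul_smul, smul_comm ⟪sB ι W 0 u u, sB ι W 0 u u⟫]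
    rfl
  simp only [map_zero, add_zero, smul_zero, ContinuousLinearMap.zero_apply, zero_smul, zero_add,
    ContinuousLinearMap.one_apply, ContinuousLinearMap.neg_apply, ContinuousLinearMap.smul_apply,
    ContinuousLinearMap.comp_apply, map_neg, map_smul, t, Finset.sum_add_distrib,
    Finset.sum_neg_distrib, ← Finset.smul_sum, ← Finset.sum_smul, e.sum_inner_mul_inner, hu,
    sym4 h.smooth 0 (ι u)] at key
  rw [sym3' h3, sym3 h3, key]
  unfold sB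
  module

theorem local_contra [FiniteDimensional ℝ P] [FiniteDimensional ℝ Q] {n : ℕ}
    (e : OrthonormalBasis (Fin n) ℝ P) (hd : finrank ℝ Q = finrank ℝ P + 2) (tm : X →L[ℝ] ℝ)
    (τ : X) (ht0 : ∀ a, tm (ι a) = 0) (ht1 : tm τ = 1)
    (hpde : ∀ᶠ x in 𝓝 (0 : X), fderiv ℝ W x τ = ∑ j, sB ι W x (e j) (gi (sL ι W x) (e j))
      + (n : ℝ) • (W x - sL ι W x (pr x)))
    {Z : ℝ → ℝ} {z z₁ z₂ : ℝ} (hZ : Jet Z z z₁ z₂) (hz0 : 0 < z) (hz1 : z ≤ 1)
    (hz' : -(2 * n * z) < z₁)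
    (hle : ∀ᶠ x in 𝓝 (0 : X), tm x ≤ 0 → ∀ u v, u ≠ 0 → v ≠ 0 →
      psi (Z (tm x)) (sL ι W x) (nz (sL ι W x) (sB ι W x u u) u)
        (nz (sL ι W x) (sB ι W x v v) v) ≤ 0)
    (heq : ∃ u v, u ≠ 0 ∧ v ≠ 0 ∧ 0 ≤ psi (Z 0) (sL ι W 0) (nz (sL ι W 0) (sB ι W 0 u u) u)
        (nz (sL ι W 0) (sB ι W 0 v v) v)) : False := by
  have h2 : ContDiff ℝ 2 W := h.smooth.of_le (by norm_num)
  have h3 : ContDiff ℝ 3 W := h.smooth.of_le (by norm_num)
  have hf : ⟪W 0, W 0⟫ = 1 := h.sph.self_of_nhds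
  have hfJ : (J†) (W 0) = 0 := by rw [h.proj.self_of_nhds, map_zero]
  obtain ⟨ν, hν, hνf, hdec⟩ := exists_normal (L := J)
    (fun a b e => by rw [← h.iso a, e, h.iso]) hf hfJ hd
  have hfν : ⟪W 0, ν⟫ = 0 := by rw [real_inner_comm, hνf]
  obtain ⟨A, hA⟩ : ∃ A : P →L[ℝ] P →L[ℝ] ℝ, ∀ a b, A a b = ⟪ν, sB ι W 0 a b⟫ :=
    ⟨ContinuousLinearMap.compL ℝ P Q ℝ (innerSL ℝ ν) ∘L
      (fderiv ℝ (fderiv ℝ W) 0).bilinearComp ι ι, fun _ _ => rfl⟩
  have hsym : ∀ a b, A a b = A b a := fun a b => by rw [hA, hA, sB, sB, sym2 h2]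
  have hB : ∀ a b, sB ι W 0 a b = A a b • ν - ⟪a, b⟫ • W 0 := fun a b => by
    rw [hdec (sB ι W 0 a b) (h.v20 _ _), (h.s12 a b).1, hA, real_inner_comm ν, neg_smul,
      sub_eq_add_neg]
  obtain ⟨t, ht⟩ : ∃ t : P → P → P → ℝ, ∀ a b c,
      t a b c = ⟪fderiv ℝ (fderiv ℝ (fderiv ℝ W)) 0 (ι a) (ι b) (ι c), ν⟫ := ⟨_, fun _ _ _ => rfl⟩
  have hT : ∀ a b c, fderiv ℝ (fderiv ℝ (fderiv ℝ W)) 0 (ι a) (ι b) (ι c) = t a b c • ν :=
    fun a b c => by rw [ht]; conv_lhs => rw [hdec _ (h.v30 _ _ _), h.s3, zero_smul, add_zero]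
  have hL0 : sL ι W 0 = J := by ext a; exact h.base a
  have hJJ : ∀ a, ⟪J a, J a⟫ = ⟪a, a⟫ := fun a => by
    rw [← ContinuousLinearMap.adjoint_inner_right, h.iso]
  have hnz : ∀ w, w ≠ 0 → nz J (sB ι W 0 w w) w = (A w w / ⟪w, w⟫) • ν - W 0 := by
    intro w hw
    have : ⟪w, w⟫ ≠ 0 := fun e => hw (inner_self_eq_zero.1 e)
    rw [nz, hJJ, hB, smul_sub, smul_smul, smul_smul, inv_mul_cancel₀ this, one_smul,
      div_eq_inv_mul]
  have hpsi : ∀ w w', w ≠ 0 → w' ≠ 0 → psi (Z 0) (sL ι W 0) (nz (sL ι W 0) (sB ι W 0 w w) w)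
      (nz (sL ι W 0) (sB ι W 0 w' w') w') = Gq z (A w w / ⟪w, w⟫) (A w' w' / ⟪w', w'⟫) := by
    intro w w' hw hw'
    have k : ∀ w, (J†) (nz J (sB ι W 0 w w) w) = 0 := fun w => by
      rw [nz, map_smul, sB, h.v20, smul_zero]
    rw [hL0, psi, pf, pf, map_sub, k, k, hnz w hw, hnz w' hw', hZ.1, ← psi_scalar hν hf hνf]
    simp
  have hall : ∀ w w', w ≠ 0 → w' ≠ 0 → Gq z (A w w / ⟪w, w⟫) (A w' w' / ⟪w', w'⟫) ≤ 0 := by
    intro w w' hw hw'
    have := hle.self_of_nhds (by simp) w w' hw hw'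
    rwa [map_zero, hpsi w w' hw hw'] at this
  have ne0 : ∀ {w : P}, ⟪w, w⟫ = 1 → w ≠ 0 := fun hw e => by simp [e] at hw
  obtain ⟨u, v, hu, hv, hG, hpq⟩ : ∃ u v : P, ⟪u, u⟫ = 1 ∧ ⟪v, v⟫ = 1 ∧
      Gq z (A u u) (A v v) = 0 ∧ A v v ≤ A u u := by
    obtain ⟨u, v, hu, hv, h0⟩ := heq
    have k : ∀ w : P, w ≠ 0 → ∃ w' : P, ⟪w', w'⟫ = 1 ∧ A w' w' = A w w / ⟪w, w⟫ := by
      intro w hw
      have := norm_ne_zero_iff.2 hw
      refine ⟨‖w‖⁻¹ • w, ?_, ?_⟩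
      · rw [real_inner_smul_left, real_inner_smul_right, real_inner_self_eq_norm_sq]; field_simp
      · simp only [map_smul, ContinuousLinearMap.smul_apply, smul_eq_mul,
          real_inner_self_eq_norm_sq]
        field_simp
    obtain ⟨u', hu', eu⟩ := k u hu
    obtain ⟨v', hv', ev⟩ := k v hv
    have h1 : Gq z (A u' u') (A v' v') = 0 := by
      rw [eu, ev]; exact le_antisymm (hall u v hu hv) (hpsi u v hu hv ▸ h0)
    rcases le_total (A v' v') (A u' u') with c | c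
    · exact ⟨u', v', hu', hv', h1, c⟩
    · exact ⟨v', u', hv', hu', by rw [← h1]; unfold Gq; ring, c⟩
  obtain ⟨p, hp⟩ : ∃ p, p = A u u := ⟨_, rfl⟩
  obtain ⟨q, hq⟩ : ∃ q, q = A v v := ⟨_, rfl⟩
  rw [← hp, ← hq] at hG hpq
  unfold Gq at hG
  have hD : 0 < p - q := by
    refine sub_pos.2 (lt_of_le_of_ne hpq fun e => ?_)
    rw [e] at hG
    nlinarith [mul_nonneg hz0.le (sq_nonneg p)]
  have hK : 0 < 1 + p * q := by
    by_contra hc
    push Not at hc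
    nlinarith [mul_nonneg hz0.le (neg_nonneg.2 hc)]
  obtain ⟨x, hx⟩ : ∃ x, x = 2 * (p - q) - 4 * z * q := ⟨_, rfl⟩
  obtain ⟨y, hy⟩ : ∃ y, y = 2 * (p - q) + 4 * z * p := ⟨_, rfl⟩
  have hx0 : 0 < x := by
    refine (mul_pos_iff_of_pos_right hD).1 ?_
    rw [hx]; nlinarith [mul_nonneg hz0.le (sq_nonneg q)]
  have hy0 : 0 < y := by
    refine (mul_pos_iff_of_pos_right hD).1 ?_
    rw [hy]; nlinarith [mul_nonneg hz0.le (sq_nonneg p)]
  have hmax : ∀ w, A w w ≤ p * ⟪w, w⟫ := by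
    intro w
    by_cases hw : w = 0
    · simp [hw]
    have := hall w v hw (ne0 hv)
    rw [hv, div_one, ← hq] at this
    unfold Gq at this
    rw [← div_le_iff₀ (real_inner_self_pos.2 hw)]
    by_contra hc
    push Not at hc
    have := mul_pos hx0 (sub_pos.2 hc)
    rw [hx] at this
    nlinarith [sq_nonneg (A w w / ⟪w, w⟫ - p)]
  have hmin : ∀ w, q * ⟪w, w⟫ ≤ A w w := by
    intro w
    by_cases hw : w = 0
    · simp [hw]
    have := hall u w (ne0 hu) hw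
    rw [hu, div_one, ← hp] at this
    unfold Gq at this
    rw [← le_div_iff₀ (real_inner_self_pos.2 hw)]
    by_contra hc
    push Not at hc
    have := mul_pos hy0 (sub_pos.2 hc)
    rw [hy] at this
    nlinarith [sq_nonneg (A w w / ⟪w, w⟫ - q)]
  have eu : ∀ w, A u w = p * ⟪u, w⟫ := eigen_of_max A hsym hmax (by rw [hu, hp, mul_one])
  have ev : ∀ w, A v w = q * ⟪v, w⟫ := fun w => by
    have := eigen_of_max (-A) (fun a b => by simp [hsym a b]) (p := -q) (u := v)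
      (fun w => by simpa using hmin w) (by rw [hv, hq, mul_one]; rfl) w
    simpa using this
  have huv : ⟪u, v⟫ = 0 := by
    have := eu v
    rw [hsym, ev, real_inner_comm u v] at this
    exact (mul_eq_zero.1 (by linarith : (p - q) * ⟪u, v⟫ = 0)).resolve_left hD.ne'
  have bu : ∀ w, sB ι W 0 u w = ⟪u, w⟫ • (p • ν - W 0) := fun w => by rw [hB, eu]; module
  have bv : ∀ w, sB ι W 0 v w = ⟪v, w⟫ • (q • ν - W 0) := fun w => by rw [hB, ev]; module
  have bu' : sB ι W 0 u u = p • ν - W 0 := by rw [bu, hu, one_smul]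
  have bv' : sB ι W 0 v v = q • ν - W 0 := by rw [bv, hv, one_smul]
  have nz' : ∀ {u a : P} (s : ℝ), ⟪u, u⟫ = 1 → ⟪u, a⟫ = 0 → u + s • a ≠ 0 := by
    intro u a s hu ha e
    have : ⟪u, u + s • a⟫ = 1 := by rw [inner_add_right, real_inner_smul_right, hu, ha]; ring
    simp [e] at this
  have jet : ∀ (d : X) {a b : P}, ⟪u, a⟫ = 0 → ⟪v, b⟫ = 0 → ∀ {Z' : ℝ → ℝ} {c₁ c₂ : ℝ},
      Jet Z' z c₁ c₂ → _ := fun d a b ha hb Z' c₁ c₂ hZ' =>
    (jet_psi (h.jet_L d) h.iso (fun a => h.v20 _ _) (fun a => h.v30 _ _ _)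
      (h.jet_xi d hu ha (by rw [bu, ha, zero_smul])) (h.jet_xi d hv hb (by rw [bv, hb, zero_smul]))
      (h.v20 _ _) (h.v30 _ _ _) (h.v20 _ _) (h.v30 _ _ _) hZ').of_eq (d₀ := 0)
      (by rw [bu', bv', psi_scalar hν hf hνf]; exact hG) rfl rfl
  obtain ⟨M, hM⟩ : ∃ M, M = (2 : ℝ) • (sB ι W 0 u u - sB ι W 0 v v) - (4 * z) • sB ι W 0 v v :=
    ⟨_, rfl⟩
  obtain ⟨N, hN⟩ : ∃ N, N = (-2 : ℝ) • (sB ι W 0 u u - sB ι W 0 v v) - (4 * z) • sB ι W 0 u u :=
    ⟨_, rfl⟩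
  have Mν : ⟪M, ν⟫ = x := by
    simp only [hM, bu', bv', inner_sub_left, real_inner_smul_left, hν, hfν, hx]; ring
  have Mf : ⟪M, W 0⟫ = 4 * z := by
    simp only [hM, bu', bv', inner_sub_left, real_inner_smul_left, hνf, hf]; ring
  have Nν : ⟪N, ν⟫ = -y := by
    simp only [hN, bu', bv', inner_sub_left, real_inner_smul_left, hν, hfν, hy]; ring
  have Nf : ⟪N, W 0⟫ = 4 * z := by
    simp only [hN, bu', bv', inner_sub_left, real_inner_smul_left, hνf, hf]; ring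
  have sp : ∀ (d : P) {a b : P}, ⟪u, a⟫ = 0 → ⟪v, b⟫ = 0 → _ := fun d a b ha hb =>
    (jet (ι d) ha hb (Jet.const z)).max (by
      filter_upwards [line_ev hle (ι d)] with s hs
      have := hs (by simp [ht0]) _ _ (nz' s hu ha) (nz' s hv hb)
      rwa [map_smul, ht0, smul_zero, hZ.1] at this)
  have first : ∀ w, x * t w u u = y * t w v v := by
    intro w
    have := (sp w (inner_zero_right u) (inner_zero_right v)).1
    rw [← hM, ← hN, hT, hT, real_inner_smul_right, real_inner_smul_right, Mν, Nν] at this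
    linarith
  obtain ⟨a, b, ha, hb, good⟩ := good_sum e t (fun a b c => by rw [ht, ht, sym3' h3])
    (fun a b c => by rw [ht, ht, sym3 h3]) (fun a b c c' => by simp only [ht, map_add, inner_add_left])
    (fun a b c r => by simp only [ht, map_smul, real_inner_smul_left]) hu hv huv hx0 hy0 hD
    (by rw [hx, hy]; ring) hz0.le hz1 first
  have second : ∀ j, ⟪M, fderiv ℝ (fderiv ℝ (fderiv ℝ (fderiv ℝ W))) 0 (ι (e j)) (ι (e j)) (ι u) (ι u)⟫
      + ⟪N, fderiv ℝ (fderiv ℝ (fderiv ℝ (fderiv ℝ W))) 0 (ι (e j)) (ι (e j)) (ι v) (ι v)⟫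
      + ((4 * x * t (e j) u (a j) - 2 * x * (p - q) * ⟪a j, a j⟫)
        + (-4 * y * t (e j) v (b j) - 2 * y * (p - q) * ⟪b j, b j⟫)
        + (2 * (t (e j) u u - t (e j) v v) ^ 2 - 8 * z * (t (e j) u u * t (e j) v v)))
      - 2 * (p ^ 2 + 1) * (x * p - 4 * z) * (⟪u, e j⟫ * ⟪e j, u⟫)
      + 2 * (q ^ 2 + 1) * (y * q + 4 * z) * (⟪v, e j⟫ * ⟪e j, v⟫) + 8 * z * (1 + p * q) ≤ 0 := by
    intro j
    have hs := (sp (e j) (ha j) (hb j)).2
    have he : ⟪e j, e j⟫ = 1 := by simp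
    obtain ⟨S, hS⟩ : ∃ S, S = (fderiv ℝ (fderiv ℝ W) 0 (ι (e j)) ∘L ι)† := ⟨_, rfl⟩
    have S1 : ∀ ξ w, ⟪S ξ, w⟫ = ⟪ξ, sB ι W 0 (e j) w⟫ := fun ξ w => by
      rw [hS, ContinuousLinearMap.adjoint_inner_left]; rfl
    have Sf : S (W 0) = -e j := ext_inner_right ℝ fun w => by
      rw [S1, real_inner_comm, (h.s12 _ _).1, inner_neg_left]
    have ob := op_bound A hsym (sub_pos.1 hD) hmax hmin he (y := S ν) fun w => by rw [S1, hA]
    have e1 : fderiv ℝ (fderiv ℝ W) 0 (ι (e j)) (ι u) = ⟪u, e j⟫ • (p • ν - W 0) := by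
      rw [sym2 h2]; exact bu _
    have e2 : fderiv ℝ (fderiv ℝ W) 0 (ι (e j)) (ι v) = ⟪v, e j⟫ • (q • ν - W 0) := by
      rw [sym2 h2]; exact bv _
    rw [← hM, ← hN, ← hS, e1, e2, bu', bv', hB (a j), hB (b j)] at hs
    simp only [hT, inner_add_right, inner_sub_right, inner_sub_left, real_inner_smul_left,
      real_inner_smul_right, Mν, Mf, Nν, Nf, hν, hf, hνf, hfν, map_sub, map_smul, Sf,
      inner_neg_left, inner_neg_right, he, real_inner_comm (S ν) (e j)] at hs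
    rw [real_inner_comm u (e j), real_inner_comm v (e j)]
    have k1 := mul_le_mul_of_nonneg_left (hmin (a j)) hx0.le
    have k2 := mul_le_mul_of_nonneg_left (hmax (b j)) hy0.le
    have k3 := mul_le_mul_of_nonneg_left ob hz0.le
    have k4 : ⟪S ν, S ν⟫ * ((p - q) ^ 2 - 4 * (z * (1 + p * q))) = 0 := by rw [hG, mul_zero]
    nlinarith
  have ssum := Finset.sum_nonpos fun j (_ : j ∈ Finset.univ) => second j
  simp only [Finset.sum_add_distrib, Finset.sum_sub_distrib, ← Finset.mul_sum,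
    e.sum_inner_mul_inner, hu, hv, ← inner_sum, Finset.sum_const, Finset.card_univ,
    Fintype.card_fin, nsmul_eq_mul] at ssum good
  have time := (jet τ (inner_zero_right u) (inner_zero_right v) hZ).left (by
    filter_upwards [mem_nhdsWithin_of_mem_nhds (line_ev hle τ), self_mem_nhdsWithin] with s hs hs'
    have := hs (by simpa [ht1] using le_of_lt hs') _ _ (nz' s hu (inner_zero_right u))
      (nz' s hv (inner_zero_right v))
    rwa [map_smul, ht1, smul_eq_mul, mul_one] at this)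
  rw [← hM, ← hN, h.pde_jet e τ hpde hu (fun w => by rw [bu, bu']),
    h.pde_jet e τ hpde hv (fun w => by rw [bv, bv']), bu', bv'] at time
  simp only [inner_sub_right, inner_sub_left, real_inner_smul_left, real_inner_smul_right, Mν, Mf,
    Nν, Nf, hν, hf, hνf, hfν] at time
  have k1 := mul_pos (by linarith : 0 < z₁ + 2 * n * z) hK
  have k2 : (n : ℝ) * (x * p - y * q - 8 * z) = 0 := by
    rw [hx, hy, show (2 * (p - q) - 4 * z * q) * p - (2 * (p - q) + 4 * z * p) * q - 8 * z =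
      2 * ((p - q) ^ 2 - 4 * (z * (1 + p * q))) by ring, hG]
    ring
  nlinarith

end Graph

end Pool.Agent.Lib.MP_de485e_gt
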