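import Pool.Agent.Lib.MP_de485e_gt.Local

/-! Second fundamental form of a parametrised piece of submanifold of the unit sphere. -/

set_option maxSynthPendingDepth 3

open Filter Topology Module
open scoped RealInnerProductSpace InnerProduct

namespace Pool.Agent.Lib.MP_de485e_gt

variable {P Q : Type*} [NormedAddCommGroup P] [InnerProductSpace ℝ P] [CompleteSpace P]
  [NormedAddCommGroup Q] [InnerProductSpace ℝ Q] [CompleteSpace Q]
  [FiniteDimensional ℝ P] [FiniteDimensional ℝ Q]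

omit [FiniteDimensional ℝ Q] in
theorem isUnit_gram {L : P →L[ℝ] Q} (hL : Function.Injective L) : IsUnit (L† ∘L L) := by
  have hi : Function.Injective (L† ∘L L) := by
    rw [injective_iff_map_eq_zero]
    intro a ha
    have : ⟪L a, L a⟫ = 0 := by
      rw [← ContinuousLinearMap.adjoint_inner_right]
      exact (congrArg (fun w => ⟪a, w⟫) ha).trans (inner_zero_right a)
    exact hL ((inner_self_eq_zero.1 this).trans (map_zero L).symm)
  exact ContinuousLinearMap.isUnit_iff_bijective.2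
    ⟨hi, (LinearMap.injective_iff_surjective (f := (L† ∘L L).toLinearMap)).1 hi⟩

omit [FiniteDimensional ℝ Q] in
theorem gram_gi {L : P →L[ℝ] Q} (hL : Function.Injective L) (a : P) : (L†) (L (gi L a)) = a :=
  congrArg (fun T : P →L[ℝ] P => T a) (Ring.mul_inverse_cancel _ (isUnit_gram hL))

omit [FiniteDimensional ℝ Q] in
theorem gi_gram {L : P →L[ℝ] Q} (hL : Function.Injective L) (a : P) : gi L ((L†) (L a)) = a :=
  congrArg (fun T : P →L[ℝ] P => T a) (Ring.inverse_mul_cancel _ (isUnit_gram hL))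

theorem exists_iso {L : P →L[ℝ] Q} (hL : Function.Injective L) :
    ∃ A : P →L[ℝ] P, Function.Surjective A ∧ ∀ a b, ⟪L (A a), L (A b)⟫ = ⟪a, b⟫ := by
  have hr := LinearMap.finrank_range_of_inj (f := L.toLinearMap) hL
  let φ := (stdOrthonormalBasis ℝ P).equiv (stdOrthonormalBasis ℝ (LinearMap.range L.toLinearMap))
    (finCongr hr.symm)
  let ψ := φ.toLinearEquiv.trans (LinearEquiv.ofInjective L.toLinearMap hL).symm
  have k : ∀ a, L (ψ a) = φ a := fun a =>
    congrArg Subtype.val ((LinearEquiv.ofInjective L.toLinearMap hL).apply_symm_apply (φ a))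
  refine ⟨LinearMap.toContinuousLinearMap ψ.toLinearMap, ψ.surjective, fun a b => ?_⟩
  change ⟪L (ψ a), L (ψ b)⟫ = _
  rw [k, k, ← Submodule.coe_inner, φ.inner_map_map]

omit [FiniteDimensional ℝ Q] in
theorem sum_gi {n : ℕ} (e : OrthonormalBasis (Fin n) ℝ P) {L : P →L[ℝ] Q}
    (hL : Function.Injective L) {A : P →L[ℝ] P} (hA : Function.Surjective A)
    (h : ∀ a b, ⟪L (A a), L (A b)⟫ = ⟪a, b⟫) (B : P →L[ℝ] P →L[ℝ] Q) :
    ∑ j, B (e j) (gi L (e j)) = ∑ i, B (A (e i)) (A (e i)) := by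
  have k : ∀ w, gi L w = A ((A†) w) := by
    intro w
    have : (L†) (L (A ((A†) w))) = w := by
      refine ext_inner_right ℝ fun b => ?_
      obtain ⟨b, rfl⟩ := hA b
      rw [ContinuousLinearMap.adjoint_inner_left, h, ContinuousLinearMap.adjoint_inner_left]
    rw [← gi_gram hL (A _), this]
  calc ∑ j, B (e j) (gi L (e j)) = ∑ j, ∑ i, ⟪e j, A (e i)⟫ • B (e j) (A (e i)) := by
        refine Finset.sum_congr rfl fun j _ => ?_
        rw [k, ← e.sum_repr' ((A†) (e j)), map_sum, map_sum]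
        refine Finset.sum_congr rfl fun i _ => ?_
        rw [map_smul, map_smul, ContinuousLinearMap.adjoint_inner_right, real_inner_comm]
    _ = _ := by
        rw [Finset.sum_comm]
        refine Finset.sum_congr rfl fun i _ => ?_
        conv_rhs => rw [← e.sum_repr' (A (e i)), map_sum B, e.sum_repr' (A (e i))]
        simp

/-- Projection to the normal space inside the tangent space of the sphere. -/
noncomputable def np (L : P →L[ℝ] Q) (f : Q) : Q →L[ℝ] Q :=
  ((LinearMap.range L.toLinearMap ⊔ Submodule.span ℝ {f})ᗮ).starProjection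

omit [FiniteDimensional ℝ Q] in
theorem np_eq {L : P →L[ℝ] Q} (hL : Function.Injective L) {f : Q} (hf : ⟪f, f⟫ = 1)
    (hfL : (L†) f = 0) (ξ : Q) : np L f ξ = ξ - L (gi L ((L†) ξ)) - ⟪ξ, f⟫ • f := by
  refine Submodule.eq_starProjection_of_mem_orthogonal ?_ (Submodule.le_orthogonal_orthogonal _ ?_)
  · intro w hw
    obtain ⟨_, ⟨a, rfl⟩, y, hy, rfl⟩ := Submodule.mem_sup.1 hw
    obtain ⟨c, rfl⟩ := Submodule.mem_span_singleton.1 hy
    have e : ∀ a w, ⟪L a, w⟫ = ⟪a, (L†) w⟫ := fun a w => by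
      rw [ContinuousLinearMap.adjoint_inner_right]
    have e' : ⟪f, L (gi L ((L†) ξ))⟫ = 0 := by rw [real_inner_comm, e, hfL, inner_zero_right]
    simp only [ContinuousLinearMap.coe_coe, inner_add_left, e, map_sub, map_smul, gram_gi hL, hfL,
      real_inner_smul_left, inner_sub_right, real_inner_smul_right, e', hf, real_inner_comm f ξ,
      inner_zero_right]
    ring
  · refine Submodule.mem_sup.2 ⟨_, ⟨gi L ((L†) ξ), rfl⟩, ⟪ξ, f⟫ • f,
      Submodule.mem_span_singleton.2 ⟨_, rfl⟩, ?_⟩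
    simp only [ContinuousLinearMap.coe_coe]; abel

omit [FiniteDimensional ℝ Q] in
theorem inner_np {L : P →L[ℝ] Q} (hL : Function.Injective L) {f : Q} (hf : ⟪f, f⟫ = 1)
    (hfL : (L†) f = 0) (ξ ζ : Q) : ⟪np L f ξ, np L f ζ⟫ = pf L ξ ζ - ⟪ξ, f⟫ * ⟪ζ, f⟫ := by
  have e : ∀ a w, ⟪L a, w⟫ = ⟪a, (L†) w⟫ := fun a w => by
    rw [ContinuousLinearMap.adjoint_inner_right]
  have e' : ∀ a w, ⟪w, L a⟫ = ⟪(L†) w, a⟫ := fun a w => by
    rw [ContinuousLinearMap.adjoint_inner_left]
  have k : (L†) (np L f ζ) = 0 := by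
    rw [np_eq hL hf hfL, map_sub, map_sub, gram_gi hL, map_smul, hfL]; simp
  have k' : ⟪f, np L f ζ⟫ = 0 := by
    rw [np_eq hL hf hfL, inner_sub_right, inner_sub_right, e', hfL, real_inner_smul_right, hf,
      real_inner_comm]
    simp
  rw [np_eq hL hf hfL ξ, inner_sub_left, inner_sub_left, e, k, real_inner_smul_left, k',
    np_eq hL hf hfL ζ, inner_sub_right, inner_sub_right, e', real_inner_smul_right, pf]
  simp [mul_comm]

/-- Second fundamental form in the unit sphere of a parametrisation `f` at `y`. -/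
noncomputable def hS (f : P → Q) (y u v : P) : Q :=
  np (fderiv ℝ f y) (f y) (fderiv ℝ (fderiv ℝ f) y u v)

/-- Normal curvature vector in the direction `u`. -/
noncomputable def kS (f : P → Q) (y u : P) : Q := nz (fderiv ℝ f y) (hS f y u u) u

/-- The pinching defect. -/
noncomputable def phi (Z : ℝ) (f : P → Q) (y u v : P) : ℝ :=
  ⟪kS f y u - kS f y v, kS f y u - kS f y v⟫ - 4 * (Z * (1 + ⟪kS f y u, kS f y v⟫))

/-- `f` is near `y` a twice differentiable map to the sphere, immersive at `y`. -/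
structure Nice (f : P → Q) (y : P) : Prop where
  sm : ContDiffAt ℝ 2 f y
  sph : ∀ᶠ x in 𝓝 y, ⟪f x, f x⟫ = 1
  inj : Function.Injective (fderiv ℝ f y)

namespace Nice

variable {f : P → Q} {y : P} (h : Nice f y)
include h

omit [FiniteDimensional ℝ P] [FiniteDimensional ℝ Q] [CompleteSpace P] [CompleteSpace Q] in
theorem d1 (b : P) : ∀ᶠ x in 𝓝 y, ⟪fderiv ℝ f x b, f x⟫ = 0 := by
  filter_upwards [h.sph.eventually_nhds, h.sm.eventually (by simp)] with x hx hs
  have hd := (hs.differentiableAt (by norm_num)).hasFDerivAt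
  have := congrArg (fun T : P →L[ℝ] ℝ => T b) ((hd.inner ℝ hd).unique
    ((hasFDerivAt_const (1 : ℝ) x).congr_of_eventuallyEq hx))
  simp only [ContinuousLinearMap.comp_apply, fderivInnerCLM_apply,
    ContinuousLinearMap.prod_apply, ContinuousLinearMap.zero_apply,
    real_inner_comm (fderiv ℝ f x b) (f x)] at this
  linarith

omit [FiniteDimensional ℝ P] [FiniteDimensional ℝ Q] in
theorem perp : ((fderiv ℝ f y)†) (f y) = 0 := by
  refine ext_inner_left ℝ fun b => ?_
  rw [ContinuousLinearMap.adjoint_inner_right, (h.d1 b).self_of_nhds, inner_zero_right]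

omit [FiniteDimensional ℝ P] [FiniteDimensional ℝ Q] [CompleteSpace P] [CompleteSpace Q] in
theorem d2 (a b : P) :
    ⟪fderiv ℝ (fderiv ℝ f) y a b, f y⟫ = -⟪fderiv ℝ f y a, fderiv ℝ f y b⟫ := by
  have hd := (h.sm.differentiableAt (by norm_num)).hasFDerivAt
  have hd2 := ((h.sm.fderiv_right (m := 1) (by norm_num)).differentiableAt
    (by norm_num)).hasFDerivAt
  have := congrArg (fun T : P →L[ℝ] ℝ => T a) (((hd2.clm_apply (hasFDerivAt_const b y)).inner ℝ
    hd).unique ((hasFDerivAt_const (0 : ℝ) y).congr_of_eventuallyEq (h.d1 b)))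
  simp only [ContinuousLinearMap.comp_apply, fderivInnerCLM_apply, ContinuousLinearMap.add_apply,
    ContinuousLinearMap.prod_apply, ContinuousLinearMap.zero_apply, map_zero, zero_add,
    ContinuousLinearMap.flip_apply, real_inner_comm (fderiv ℝ f y a)] at this
  linarith

omit [FiniteDimensional ℝ Q] in
theorem hS_eq (u v : P) : hS f y u v = fderiv ℝ (fderiv ℝ f) y u v - fderiv ℝ f y (gi (fderiv ℝ f y)
    (((fderiv ℝ f y)†) (fderiv ℝ (fderiv ℝ f) y u v))) + ⟪fderiv ℝ f y u, fderiv ℝ f y v⟫ • f y := by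
  rw [hS, np_eq h.inj h.sph.self_of_nhds h.perp, h.d2, neg_smul, sub_neg_eq_add]

omit [FiniteDimensional ℝ Q] in
theorem phi_eq (Z : ℝ) {u v : P} (hu : u ≠ 0) (hv : v ≠ 0) : phi Z f y u v =
    psi Z (fderiv ℝ f y) (nz (fderiv ℝ f y) (fderiv ℝ (fderiv ℝ f) y u u) u)
      (nz (fderiv ℝ f y) (fderiv ℝ (fderiv ℝ f) y v v) v) := by
  have k : ∀ w, kS f y w = np (fderiv ℝ f y) (f y)
      (nz (fderiv ℝ f y) (fderiv ℝ (fderiv ℝ f) y w w) w) := fun w => by
    rw [kS, nz, nz, map_smul, hS]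
  have k' : ∀ w, w ≠ 0 → ⟪nz (fderiv ℝ f y) (fderiv ℝ (fderiv ℝ f) y w w) w, f y⟫ = -1 := by
    intro w hw
    have : ⟪fderiv ℝ f y w, fderiv ℝ f y w⟫ ≠ 0 := fun e =>
      hw (h.inj ((inner_self_eq_zero.1 e).trans (map_zero _).symm))
    rw [nz, real_inner_smul_left, h.d2]; field_simp
  rw [phi, k, k, ← map_sub, inner_np h.inj h.sph.self_of_nhds h.perp,
    inner_np h.inj h.sph.self_of_nhds h.perp, inner_sub_left _ _ (f y), k' u hu, k' v hv, psi]
  ring

end Nice

omit [CompleteSpace P] [FiniteDimensional ℝ Q] in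
theorem reparam {f f' : P → Q} {ψ : P → P} {z : P} (hf : ContDiffAt ℝ 2 f (ψ z))
    (hψ : ContDiffAt ℝ 2 ψ z) (e : f' =ᶠ[𝓝 z] f ∘ ψ) (hi : Function.Injective (fderiv ℝ f' z)) :
    ∃ A : P →L[ℝ] P, Function.Bijective A ∧ fderiv ℝ f' z = fderiv ℝ f (ψ z) ∘L A ∧
      (∀ u v, hS f' z u v = hS f (ψ z) (A u) (A v)) ∧
      ∀ Z u v, phi Z f' z u v = phi Z f (ψ z) (A u) (A v) := by
  have e1 : fderiv ℝ f' =ᶠ[𝓝 z] fun x => fderiv ℝ f (ψ x) ∘L fderiv ℝ ψ x := by
    filter_upwards [e.fderiv (𝕜 := ℝ), hψ.eventually (by simp),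
      hψ.continuousAt.eventually (hf.eventually (by simp))] with x h1 h2 h3
    rw [h1, fderiv_comp x (h3.differentiableAt (by norm_num)) (h2.differentiableAt (by norm_num))]
  have hA : Function.Injective (fderiv ℝ ψ z) := fun a b hab => hi (by
    rw [e1.self_of_nhds, ContinuousLinearMap.comp_apply, ContinuousLinearMap.comp_apply, hab])
  have hs := (LinearMap.injective_iff_surjective (f := (fderiv ℝ ψ z).toLinearMap)).1 hA
  have hd := (hψ.differentiableAt (by norm_num)).hasFDerivAt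
  have hd2 := ((hψ.fderiv_right (m := 1) (by norm_num)).differentiableAt (by norm_num)).hasFDerivAt
  have hf2 := ((hf.fderiv_right (m := 1) (by norm_num)).differentiableAt (by norm_num)).hasFDerivAt
  have e2 := (((hf2.comp z hd).clm_comp hd2).congr_of_eventuallyEq e1).fderiv
  have e3 : np (fderiv ℝ f' z) (f' z) = np (fderiv ℝ f (ψ z)) (f (ψ z)) := by
    have : LinearMap.range (fderiv ℝ f' z).toLinearMap =
        LinearMap.range (fderiv ℝ f (ψ z)).toLinearMap := by
      rw [e1.self_of_nhds]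
      exact LinearMap.range_comp_of_range_eq_top (fderiv ℝ f (ψ z)).toLinearMap
        (LinearMap.range_eq_top.2 hs)
    unfold np
    simp only [this, e.self_of_nhds, Function.comp_apply]
  have e4 : ∀ a, np (fderiv ℝ f (ψ z)) (f (ψ z)) (fderiv ℝ f (ψ z) a) = 0 := fun a =>
    (Submodule.starProjection_apply_eq_zero_iff _).2 (Submodule.le_orthogonal_orthogonal _
      (Submodule.mem_sup_left ⟨a, rfl⟩))
  have e5 : ∀ u v, hS f' z u v = hS f (ψ z) (fderiv ℝ ψ z u) (fderiv ℝ ψ z v) := by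
    intro u v
    rw [hS, hS, e3, e2]
    simp [e4]
  refine ⟨_, ⟨hA, hs⟩, e1.self_of_nhds, e5, fun Z u v => ?_⟩
  simp only [phi, kS, nz, e5, e1.self_of_nhds, ContinuousLinearMap.comp_apply]

end Pool.Agent.Lib.MP_de485e_gt
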