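import Pool.Agent.Lib.MP_de485e_gt.Point

/-! Reduction of a flow written in a chart to a moving graph. -/

set_option maxSynthPendingDepth 3

open Filter Topology Module
open scoped RealInnerProductSpace InnerProduct

namespace Pool.Agent.Lib.MP_de485e_gt

theorem exists_global {X V : Type*} [NormedAddCommGroup X] [NormedSpace ℝ X]
    [FiniteDimensional ℝ X] [NormedAddCommGroup V] [NormedSpace ℝ V] {f : X → V} {x : X}
    (hf : ContDiffAt ℝ 4 f x) : ∃ g : X → V, ContDiff ℝ 4 g ∧ g =ᶠ[𝓝 x] f := by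
  obtain ⟨r, hr, h⟩ := Metric.eventually_nhds_iff.1 (hf.eventually (by simp))
  let b : ContDiffBump x := ⟨r / 4, r / 2, by positivity, by linarith⟩
  refine ⟨fun y => b y • f y, contDiff_iff_contDiffAt.2 fun y => ?_, ?_⟩
  · by_cases hy : dist y x < r
    · exact (b.contDiff (n := 4)).contDiffAt.smul (h hy)
    · have : y ∉ tsupport b := by
        rw [b.tsupport_eq, Metric.mem_closedBall]
        change ¬ dist y x ≤ r / 2
        linarith
      refine (contDiffAt_const (c := (0 : V))).congr_of_eventuallyEq ?_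
      filter_upwards [notMem_tsupport_iff_eventuallyEq.1 this] with w hw
      simp [hw]
  · filter_upwards [b.eventuallyEq_one] with y hy
    simp [hy]

variable {P Q : Type*} [NormedAddCommGroup P] [InnerProductSpace ℝ P] [CompleteSpace P]
  [NormedAddCommGroup Q] [InnerProductSpace ℝ Q] [CompleteSpace Q]
  [FiniteDimensional ℝ P] [FiniteDimensional ℝ Q]

omit [CompleteSpace P] [CompleteSpace Q] [FiniteDimensional ℝ P] [FiniteDimensional ℝ Q] in
theorem slice1 {W : ℝ × P → Q} {x : ℝ × P} (h : DifferentiableAt ℝ W x) :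
    fderiv ℝ (fun y => W (x.1, y)) x.2 = sL (ContinuousLinearMap.inr ℝ ℝ P) W x :=
  (h.hasFDerivAt.comp x.2 (hasFDerivAt_prodMk_right x.1 x.2)).fderiv

omit [CompleteSpace P] [CompleteSpace Q] [FiniteDimensional ℝ P] [FiniteDimensional ℝ Q] in
theorem slice2 {W : ℝ × P → Q} (h : ContDiff ℝ 2 W) (x : ℝ × P) (u v : P) :
    fderiv ℝ (fderiv ℝ fun y => W (x.1, y)) x.2 u v = sB (ContinuousLinearMap.inr ℝ ℝ P) W x u v := by
  have e : (fderiv ℝ fun y => W (x.1, y)) =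
      fun y => fderiv ℝ W (x.1, y) ∘L ContinuousLinearMap.inr ℝ ℝ P :=
    funext fun y => slice1 (x := (x.1, y)) (h.differentiable (by norm_num) _)
  have h1 := ((h.fderiv_right (m := 1) (by norm_num)).differentiable (by norm_num)
    (x.1, x.2)).hasFDerivAt.comp x.2 (hasFDerivAt_prodMk_right (𝕜 := ℝ) x.1 x.2)
  have h2 := h1.clm_comp (hasFDerivAt_const (ContinuousLinearMap.inr ℝ ℝ P) x.2)
  rw [e]
  erw [h2.fderiv]
  simp [sB]

omit [CompleteSpace P] [FiniteDimensional ℝ P] in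
theorem sc {V : Type*} [NormedAddCommGroup V] [NormedSpace ℝ V] {G : ℝ × P → V} {x : ℝ × P}
    (hG : ContDiffAt ℝ 4 G x) : ContDiffAt ℝ 2 (fun y => G (x.1, y)) x.2 :=
  (hG.of_le (by norm_num)).comp _ (contDiffAt_const.prodMk contDiffAt_id)

omit [FiniteDimensional ℝ P] [FiniteDimensional ℝ Q] in
theorem Graph.v2' {X : Type*} [NormedAddCommGroup X] [NormedSpace ℝ X] {ι : P →L[ℝ] X}
    {pr : X →L[ℝ] P} {W : X → Q} {J : P →L[ℝ] Q} (h : Graph ι pr W J) :
    ∀ᶠ x in 𝓝 (0 : X), ∀ y' y, (J†) (fderiv ℝ (fderiv ℝ W) x y' y) = 0 :=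
  (fd_zero (V := X →L[ℝ] Q) (h.c1.differentiable (by norm_num))
    (ContinuousLinearMap.compL ℝ X Q P (J†)) (c := pr)
    (h.v1.mono fun _ hx => ContinuousLinearMap.ext hx)).mono fun _ hx y' y =>
      congrArg (fun T : X →L[ℝ] P => T y) (hx y')

theorem chart_contra {n : ℕ} (e : OrthonormalBasis (Fin n) ℝ P)
    (hd : finrank ℝ Q = finrank ℝ P + 2) {g : ℝ × P → Q} {t₀ : ℝ} {y₀ : P}
    (hg : ContDiffAt ℝ 4 g (t₀, y₀)) (hs : ∀ᶠ x in 𝓝 (t₀, y₀), ⟪g x, g x⟫ = 1)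
    (hi : Function.Injective (fderiv ℝ (fun y => g (t₀, y)) y₀))
    (hflow : ∀ᶠ x in 𝓝 (t₀, y₀), ∀ b : Fin n → P,
      (Orthonormal ℝ fun i => fderiv ℝ (fun y => g (x.1, y)) x.2 (b i)) →
      HasDerivAt (fun s => g (s, x.2)) (∑ i, hS (fun y => g (x.1, y)) x.2 (b i) (b i)) x.1)
    {Z : ℝ → ℝ} {z z₁ z₂ : ℝ} (hZ : Jet (fun s => Z (t₀ + s)) z z₁ z₂) (hz0 : 0 < z) (hz1 : z ≤ 1)
    (hz' : -(2 * n * z) < z₁)
    (hle : ∀ᶠ x in 𝓝 (t₀, y₀), x.1 ≤ t₀ → ∀ u v, u ≠ 0 → v ≠ 0 →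
      phi (Z x.1) (fun y => g (x.1, y)) x.2 u v ≤ 0)
    (heq : ∃ u v, u ≠ 0 ∧ v ≠ 0 ∧ 0 ≤ phi (Z t₀) (fun y => g (t₀, y)) y₀ u v) : False := by
  have sl : ∀ (t : ℝ) (y : P), Tendsto (fun w : P => (t, w)) (𝓝 y) (𝓝 (t, y)) := fun t y =>
    Continuous.tendsto (by fun_prop) y
  have hN : Nice (fun y => g (t₀, y)) y₀ := ⟨sc hg, (sl t₀ y₀).eventually hs, hi⟩
  have hg1 := (hg.differentiableAt (by norm_num)).hasFDerivAt
  have hL : ∀ a, fderiv ℝ (fun y => g (t₀, y)) y₀ a = fderiv ℝ g (t₀, y₀) (0, a) := fun a => by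
    rw [slice1 (x := (t₀, y₀)) hg1.differentiableAt]; rfl
  obtain ⟨A, hA, hA'⟩ := exists_iso hi
  obtain ⟨J, hJ⟩ : ∃ J : P →L[ℝ] Q, J = fderiv ℝ (fun y => g (t₀, y)) y₀ ∘L A := ⟨_, rfl⟩
  have hJ' : ∀ a, J a = fderiv ℝ g (t₀, y₀) (0, A a) := fun a => by rw [hJ, ← hL]; rfl
  have hJJ : ∀ a, (J†) (J a) = a := fun a => ext_inner_left ℝ fun b => by
    rw [ContinuousLinearMap.adjoint_inner_right, hJ]; exact hA' b a
  have hJg : (J†) (g (t₀, y₀)) = 0 := by
    rw [hJ, ContinuousLinearMap.adjoint_comp, ContinuousLinearMap.comp_apply]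
    erw [hN.perp]
    exact map_zero _
  let Ψ : ℝ × P → ℝ × P := fun x => (x.1 - t₀, (J†) (g x))
  have hΨ : ContDiffAt ℝ 4 Ψ (t₀, y₀) :=
    (contDiffAt_fst.sub contDiffAt_const).prodMk ((J†).contDiff.contDiffAt.comp _ hg)
  let D : ℝ × P →L[ℝ] ℝ × P := (ContinuousLinearMap.fst ℝ ℝ P).prod (J† ∘L fderiv ℝ g (t₀, y₀))
  have hD : HasFDerivAt Ψ D (t₀, y₀) :=
    (hasFDerivAt_fst.sub_const t₀).prodMk ((J†).hasFDerivAt.comp _ hg1)
  have hD1 : ∀ a, D (0, A a) = (0, a) := fun a => by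
    change ((0 : ℝ), (J†) (fderiv ℝ g (t₀, y₀) (0, A a))) = _
    rw [← hJ', hJJ]
  have hDi : Function.Injective D := by
    rw [injective_iff_map_eq_zero]
    rintro ⟨s, a⟩ h
    obtain rfl : s = 0 := congrArg Prod.fst h
    obtain ⟨a, rfl⟩ := hA a
    rw [hD1] at h
    rw [show a = 0 from congrArg Prod.snd h, map_zero]; rfl
  let D' : (ℝ × P) ≃L[ℝ] ℝ × P := (LinearEquiv.ofInjectiveEndo D.toLinearMap
    hDi).toContinuousLinearEquiv
  have hD' : HasFDerivAt Ψ (D' : ℝ × P →L[ℝ] ℝ × P) (t₀, y₀) := hD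
  have hΨ0 : Ψ (t₀, y₀) = 0 := by simp only [Ψ, hJg, sub_self]; rfl
  obtain ⟨χ, hχ, hχ0, hχr, hχd⟩ : ∃ χ : ℝ × P → ℝ × P, ContDiffAt ℝ 4 χ 0 ∧ χ 0 = (t₀, y₀) ∧
      (∀ᶠ x in 𝓝 (0 : ℝ × P), Ψ (χ x) = x) ∧
      HasFDerivAt χ (D'.symm : ℝ × P →L[ℝ] ℝ × P) 0 := by
    rw [← hΨ0]
    have h4 : (4 : WithTop ℕ∞) ≠ 0 := by norm_num
    exact ⟨_, hΨ.to_localInverse hD' h4, hΨ.localInverse_apply_image hD' h4,
      (hΨ.hasStrictFDerivAt' hD' h4).eventually_right_inverse,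
      (hΨ.hasStrictFDerivAt' hD' h4).to_localInverse.hasFDerivAt⟩
  have hχt : Tendsto χ (𝓝 0) (𝓝 (t₀, y₀)) := hχ0 ▸ hχ.continuousAt
  obtain ⟨W, hW, hWe⟩ := exists_global ((hχ0 ▸ hg : ContDiffAt ℝ 4 g (χ 0)).comp 0 hχ)
  have hG : Graph (ContinuousLinearMap.inr ℝ ℝ P) (ContinuousLinearMap.snd ℝ ℝ P) W J := by
    refine ⟨fun _ => rfl, hW, fun a => ?_, ?_, ?_⟩
    · have hg2 : HasFDerivAt g (fderiv ℝ g (t₀, y₀)) (χ 0) := by rw [hχ0]; exact hg1
      rw [((hg2.comp 0 hχd).congr_of_eventuallyEq hWe).fderiv, hJ']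
      change fderiv ℝ g (t₀, y₀) (D'.symm (0, a)) = _
      rw [D'.symm_apply_eq.2 (hD1 a).symm]
    · filter_upwards [hWe, hχr] with x h1 h2
      rw [h1]; exact congrArg Prod.snd h2
    · filter_upwards [hWe, hχt.eventually hs] with x h1 h2
      rwa [h1]
  have ht : ∀ᶠ x in 𝓝 (0 : ℝ × P), (χ x).1 = t₀ + x.1 := hχr.mono fun x hx => by
    have : (χ x).1 - t₀ = x.1 := congrArg Prod.fst hx
    linarith
  have hW2 : ContDiff ℝ 2 W := hW.of_le (by norm_num)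
  have hW1 := hW.differentiable (by norm_num)
  have key : ∀ᶠ x in 𝓝 (0 : ℝ × P), Nice (fun y => W (x.1, y)) x.2 ∧
      ∃ A : P →L[ℝ] P, Function.Bijective A ∧ fderiv ℝ (fun y => W (x.1, y)) x.2 =
        fderiv ℝ (fun y => g ((χ x).1, y)) (χ x).2 ∘L A ∧
      (∀ u v, hS (fun y => W (x.1, y)) x.2 u v =
        hS (fun y => g ((χ x).1, y)) (χ x).2 (A u) (A v)) ∧
      ∀ Z u v, phi Z (fun y => W (x.1, y)) x.2 u v =
        phi Z (fun y => g ((χ x).1, y)) (χ x).2 (A u) (A v) := by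
    filter_upwards [hWe.eventually_nhds, ht.eventually_nhds, hχ.eventually (by simp),
      hχt.eventually (hg.eventually (by simp)), hG.v1, hG.sph.eventually_nhds]
      with x h1 h2 h3 h4 h5 h6
    have hi : Function.Injective (fderiv ℝ (fun y => W (x.1, y)) x.2) := by
      rw [slice1 (hW1 x)]
      exact fun a b hab => (h5 (0, a)).symm.trans ((congrArg (J†) hab).trans (h5 (0, b)))
    refine ⟨⟨sc hW.contDiffAt, (sl x.1 x.2).eventually h6, hi⟩,
      reparam (ψ := fun y => (χ (x.1, y)).2) (sc h4) (sc h3).snd ?_ hi⟩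
    filter_upwards [(sl x.1 x.2).eventually h1, (sl x.1 x.2).eventually h2] with y e1 e2
    rw [e1, Function.comp_apply, Function.comp_apply, h2.self_of_nhds, ← e2]
  refine hG.local_contra e hd (ContinuousLinearMap.fst ℝ ℝ P) (1, 0) (fun _ => rfl) rfl ?_ hZ hz0
    hz1 hz' ?_ ?_
  · filter_upwards [key, hχt.eventually hflow, hWe.eventually_nhds, ht.eventually_nhds,
      hχ.eventually (by simp), hχt.eventually (hg.eventually (by simp)), hG.v1, hG.proj, hG.v2']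
      with x ⟨hn, B, hB, hB1, hB2, _⟩ h1 h2 h3 h4 h5 h6 h7 h8
    obtain ⟨C, hC, hC'⟩ := exists_iso hn.inj
    have d4 := (h4.differentiableAt (by norm_num)).hasFDerivAt
    have d5 := (h5.differentiableAt (by norm_num)).hasFDerivAt
    have k1 := (h1 (fun i => B (C (e i))) (orthonormal_iff_ite.2 fun i j => by
      rw [← orthonormal_iff_ite.1 e.orthonormal i j, ← hC', hB1]; rfl)).unique
      (d5.comp_hasDerivAt (f := fun s => (s, (χ x).2)) _
        ((hasDerivAt_id _).prodMk (hasDerivAt_const _ _)))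
    have k2 : (fderiv ℝ χ x (1, 0)).1 = 1 :=
      congrArg (fun T : ℝ × P →L[ℝ] ℝ => T (1, 0))
        (d4.fst.unique (((hasFDerivAt_fst (𝕜 := ℝ) (p := x)).const_add t₀).congr_of_eventuallyEq h3))
    obtain ⟨c, hc⟩ := hB.2 (fderiv ℝ χ x (1, 0)).2
    have k3 : fderiv ℝ W x (1, 0) = fderiv ℝ g (χ x) (1, 0) +
        fderiv ℝ (fun y => W (x.1, y)) x.2 c := by
      rw [((d5.comp x d4).congr_of_eventuallyEq h2).fderiv, hB1, slice1 d5.differentiableAt,
        ContinuousLinearMap.comp_apply, ContinuousLinearMap.comp_apply, sL,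
        ContinuousLinearMap.comp_apply, ← map_add, hc]
      congr 1
      ext <;> simp [k2]
    simp only [← hB2, hn.hS_eq, hC', Finset.sum_add_distrib, Finset.sum_sub_distrib, ← map_sum,
      ← sum_gi e hn.inj hC hC', real_inner_self_eq_norm_sq, e.orthonormal.1, one_pow, one_smul,
      Finset.sum_const, Finset.card_univ, Fintype.card_fin, ← Nat.cast_smul_eq_nsmul ℝ] at k1
    rw [← k1, add_right_comm, sub_add, ← map_sub] at k3
    generalize (gi (P := P) (Q := Q) _ : P →L[ℝ] P) _ - c = c' at k3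
    simp only [slice1 (hW1 x), slice2 hW2, Prod.mk.eta] at k3
    have k4 := congrArg (J†) k3
    simp only [map_add, map_sub, map_sum, map_smul, h6, h7, sB, h8, sL,
      ContinuousLinearMap.comp_apply, Finset.sum_const_zero, ContinuousLinearMap.coe_snd',
      ContinuousLinearMap.inr_apply] at k4
    have k5 : c' = (n : ℝ) • x.2 := by linear_combination (norm := module) k4
    rw [k3, k5, map_smul, smul_sub]
    simp only [ContinuousLinearMap.coe_snd']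
    abel
  · filter_upwards [key, hχt.eventually hle, ht] with x ⟨hn, B, hB, _, _, hB3⟩ h1 h2 hx u v hu hv
    rw [← slice1 (hW1 x), ← slice2 hW2, ← slice2 hW2, ← hn.phi_eq _ hu hv, hB3]
    have := h1 (by rw [h2]; exact add_le_of_nonpos_right hx) _ _
      (fun e => hu (hB.1 (e.trans (map_zero B).symm))) fun e => hv (hB.1 (e.trans (map_zero B).symm))
    rwa [h2] at this ⊢
  · obtain ⟨hn, B, hB, _, _, hB3⟩ := key.self_of_nhds
    obtain ⟨u, v, hu, hv, h⟩ := heq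
    obtain ⟨u, rfl⟩ := hB.2 u
    obtain ⟨v, rfl⟩ := hB.2 v
    have hu' : u ≠ 0 := fun e => hu (by rw [e, map_zero])
    have hv' : v ≠ 0 := fun e => hv (by rw [e, map_zero])
    refine ⟨u, v, hu', hv', ?_⟩
    rw [← slice1 (hW1 0), ← slice2 hW2, ← slice2 hW2, ← hn.phi_eq _ hu' hv', hB3, hχ0, add_zero]
    exact h

end Pool.Agent.Lib.MP_de485e_gt
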